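import Mathlib

/-!
# Chamberland's real extension of the 3x+1 map: basic formulas and trapping intervals
-/

namespace H488R2.CH

open Real

/-- Chamberland's map. -/
noncomputable def F (x : ℝ) : ℝ := x + 1/4 - (2*x+1)/4 * Real.cos (π * x)

/-- Its derivative. -/
noncomputable def F' (x : ℝ) : ℝ := 1 - Real.cos (π*x)/2 + π*(2*x+1)/4 * Real.sin (π*x)

/-- The (shortened) Collatz map. -/
def T (m : ℕ) : ℕ := if m % 2 = 0 then m / 2 else (3*m+1)/2

theorem hasDerivAt_F (x : ℝ) : HasDerivAt F (F' x) x := by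
  have h1 : HasDerivAt (fun y : ℝ => π * y) π x := by
    simpa using (hasDerivAt_id x).const_mul π
  have h2 : HasDerivAt (fun y : ℝ => Real.cos (π * y)) (-Real.sin (π * x) * π) x := h1.cos
  have h3' : HasDerivAt (fun y : ℝ => 2*y+1) 2 x := by
    simpa using ((hasDerivAt_id x).const_mul 2).add_const 1
  have h3 : HasDerivAt (fun y : ℝ => (2*y+1)/4) (2/4) x := h3'.div_const 4
  have h4 := h3.mul h2
  have h5 := ((hasDerivAt_id x).add_const (1/4 : ℝ)).sub h4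
  refine h5.congr_deriv ?_ |>.congr_of_eventuallyEq ?_
  · unfold F'; ring
  · exact Filter.Eventually.of_forall (fun y => by simp [F])

theorem T_even {m : ℕ} (h : m % 2 = 0) : ((T m : ℕ) : ℝ) = m / 2 := by
  unfold T; rw [if_pos h]
  have h2 : m = 2 * (m/2) := by omega
  have h3 : (m : ℝ) = 2 * ((m/2 : ℕ) : ℝ) := by exact_mod_cast h2
  linarith

theorem T_odd {m : ℕ} (h : m % 2 = 1) : ((T m : ℕ) : ℝ) = (3 * m + 1) / 2 := by
  unfold T; rw [if_neg (by omega)]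
  have h2 : 3*m+1 = 2 * ((3*m+1)/2) := by omega
  have h3 : 3*(m : ℝ)+1 = 2 * (((3*m+1)/2 : ℕ) : ℝ) := by exact_mod_cast h2
  rw [h3]; ring

theorem T_pos {m : ℕ} (h : 1 ≤ m) : 1 ≤ T m := by
  unfold T; split_ifs <;> omega

theorem cos_nat_add_even {m : ℕ} (h : m % 2 = 0) (δ : ℝ) :
    Real.cos (π * (m + δ)) = Real.cos (π * δ) := by
  have : π * (m + δ) = π * δ + m * π := by ring
  rw [this, Real.cos_add_nat_mul_pi, Even.neg_one_pow (Nat.even_iff.2 h), one_mul]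

theorem cos_nat_add_odd {m : ℕ} (h : m % 2 = 1) (δ : ℝ) :
    Real.cos (π * (m + δ)) = - Real.cos (π * δ) := by
  have : π * (m + δ) = π * δ + m * π := by ring
  rw [this, Real.cos_add_nat_mul_pi, Odd.neg_one_pow (Nat.odd_iff.2 h)]; ring

theorem sin_nat_add_even {m : ℕ} (h : m % 2 = 0) (δ : ℝ) :
    Real.sin (π * (m + δ)) = Real.sin (π * δ) := by
  have : π * (m + δ) = π * δ + m * π := by ring
  rw [this, Real.sin_add_nat_mul_pi, Even.neg_one_pow (Nat.even_iff.2 h), one_mul]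

theorem sin_nat_add_odd {m : ℕ} (h : m % 2 = 1) (δ : ℝ) :
    Real.sin (π * (m + δ)) = - Real.sin (π * δ) := by
  have : π * (m + δ) = π * δ + m * π := by ring
  rw [this, Real.sin_add_nat_mul_pi, Odd.neg_one_pow (Nat.odd_iff.2 h)]; ring

theorem F_even {m : ℕ} (h : m % 2 = 0) (δ : ℝ) :
    F (m + δ) = T m + ((2*m+1)/4 * (1 - Real.cos (π * δ)) + δ * (1 - Real.cos (π * δ)/2)) := by
  unfold F; rw [cos_nat_add_even h, T_even h]; ring

theorem F_odd {m : ℕ} (h : m % 2 = 1) (δ : ℝ) :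
    F (m + δ) = T m + (δ * (1 + Real.cos (π * δ)/2) - (2*m+1)/4 * (1 - Real.cos (π * δ))) := by
  unfold F; rw [cos_nat_add_odd h, T_odd h]; ring

theorem F'_even {m : ℕ} (h : m % 2 = 0) (δ : ℝ) :
    F' (m + δ) = 1 - Real.cos (π * δ)/2 + π * (2*m+1+2*δ)/4 * Real.sin (π * δ) := by
  unfold F'; rw [cos_nat_add_even h, sin_nat_add_even h]; ring

theorem F'_odd {m : ℕ} (h : m % 2 = 1) (δ : ℝ) :
    F' (m + δ) = 1 + Real.cos (π * δ)/2 - π * (2*m+1+2*δ)/4 * Real.sin (π * δ) := by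
  unfold F'; rw [cos_nat_add_odd h, sin_nat_add_odd h]; ring

/-- `cos x ≤ 1 - x²/2 + x⁴/24` for `|x| ≤ 4`. -/
theorem cos_le_four {x : ℝ} (h0 : 0 ≤ x) (h4 : x ≤ 4) : Real.cos x ≤ 1 - x^2/2 + x^4/24 := by
  have h := Real.sin_ge_sub_cube (x := x/2) (by linarith)
  have h1 : 0 ≤ x/2 - (x/2)^3/6 := by
    have : x/2 - (x/2)^3/6 = x/48 * (24 - x^2) := by ring
    rw [this]
    apply mul_nonneg (by linarith)
    nlinarith
  have h2 : (x/2 - (x/2)^3/6)^2 ≤ (Real.sin (x/2))^2 := by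
    apply pow_le_pow_left₀ h1 h
  have h3 : Real.cos x = 1 - 2 * (Real.sin (x/2))^2 := by
    have := Real.cos_two_mul (x/2)
    have h5 := Real.sin_sq_add_cos_sq (x/2)
    have h6 : 2 * (x/2) = x := by ring
    rw [h6] at this
    rw [this]; linarith
  rw [h3]
  nlinarith [h2, sq_nonneg (x^3)]

theorem pi_sq_bounds : 9.869 < π^2 ∧ π^2 < 9.8697 := by
  have h1 := Real.pi_gt_d6
  have h2 := Real.pi_lt_d6
  constructor
  · nlinarith
  · nlinarith

/-- the narrow width -/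
noncomputable def nar (m : ℕ) : ℝ := 0.73 / (2*m+1)

/-- the width: narrow for even `m`, wide for odd `m` -/
noncomputable def wid (m : ℕ) : ℝ := if m % 2 = 0 then 0.73 / (2*m+1) else 1.1 / (2*m+3/2)

theorem nar_pos (m : ℕ) : 0 < nar m := by unfold nar; positivity

theorem nar_le_wid (m : ℕ) : nar m ≤ wid m := by
  unfold nar wid
  split_ifs
  · exact le_rfl
  · rw [div_le_div_iff₀ (by positivity) (by positivity)]
    have : (0:ℝ) ≤ m := by positivity
    nlinarith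

theorem trap_even {m : ℕ} (h : m % 2 = 0) (h1 : 1 ≤ m) {δ : ℝ} (h0 : 0 ≤ δ)
    (hδ : δ ≤ 0.73 / (2*m+1)) : (T m : ℝ) ≤ F (m + δ) ∧ F (m+δ) ≤ T m + nar (T m) := by
  have hm2 : 2 ≤ m := by omega
  have hm : (2:ℝ) ≤ m := by exact_mod_cast hm2
  set M : ℝ := 2*m+1 with hM
  have hM5 : 5 ≤ M := by rw [hM]; linarith
  have hMδ : M * δ ≤ 0.73 := by
    have := (le_div_iff₀ (by linarith : (0:ℝ) < M)).1 hδ
    linarith
  have hδ1 : δ ≤ 0.146 := by nlinarith
  obtain ⟨hp1, hp2⟩ := pi_sq_bounds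
  have hc1 := Real.cos_le_one (π * δ)
  have hc2 := Real.one_sub_sq_div_two_le_cos (x := π * δ)
  have hc3 : 1 - Real.cos (π*δ) ≤ 4.93485 * δ^2 := by
    have : (π * δ)^2 = π^2 * δ^2 := by ring
    nlinarith [sq_nonneg δ]
  rw [F_even h]
  constructor
  · have : 0 ≤ (2*(m:ℝ)+1)/4 * (1 - Real.cos (π * δ)) + δ * (1 - Real.cos (π * δ)/2) := by
      apply add_nonneg
      · apply mul_nonneg (by positivity) (by linarith)
      · apply mul_nonneg h0 (by linarith)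
    linarith
  · have hT : nar (T m) = 1.46 / (M+1) := by
      unfold nar; rw [T_even h, hM]
      field_simp; ring
    rw [hT]
    have key : (2*(m:ℝ)+1)/4 * (1 - Real.cos (π * δ)) + δ * (1 - Real.cos (π * δ)/2) ≤ 1.46/(M+1) := by
      rw [le_div_iff₀ (by linarith)]
      rw [← hM]
      have e1 : M/4 * (1 - Real.cos (π * δ)) + δ * (1 - Real.cos (π * δ)/2)
          = (M/4 + δ/2) * (1 - Real.cos (π * δ)) + δ/2 := by ring
      rw [e1]
      have e2 : (M/4 + δ/2) * (1 - Real.cos (π * δ)) ≤ (M/4 + δ/2) * (4.93485 * δ^2) := by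
        apply mul_le_mul_of_nonneg_left hc3 (by positivity)
      -- everything in terms of `M δ`
      have e3 : (M/4 + δ/2) * (4.93485 * δ^2) + δ/2 ≤ 1.07 / M := by
        rw [le_div_iff₀ (by linarith)]
        have a1 : M * δ^2 * M ≤ 0.73 * 0.73 := by nlinarith [mul_nonneg (by linarith : (0:ℝ) ≤ M) h0]
        have a2 : δ^3 * M ≤ 0.73 * δ^2 := by nlinarith [sq_nonneg δ]
        have a3 : δ^2 ≤ 0.0213160 + 0.000001 := by nlinarith
        have a4 : ((M/4 + δ/2) * (4.93485 * δ^2) + δ/2) * M =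
            1.2337125 * (M * δ^2 * M) + 2.467425 * (δ^3*M) + (M*δ)/2 := by ring
        rw [a4]
        linarith
      have e4 : 1.07 / M * (M+1) ≤ 1.46 := by
        rw [div_mul_eq_mul_div, div_le_iff₀ (by linarith)]
        nlinarith
      have e5 : ((M/4 + δ/2) * (1 - Real.cos (π * δ)) + δ/2) * (M+1) ≤ 1.07 / M * (M+1) := by
        apply mul_le_mul_of_nonneg_right (by linarith) (by linarith)
      linarith
    linarith

theorem cubic_aux {δ : ℝ} (h0 : 0 ≤ δ) :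
    3/2 * δ - 3.700875 * δ^2 - 1.30925 * δ^3 ≤ 0.146 := by
  have b1 := mul_nonneg h0 (sq_nonneg (δ - 0.185))
  have b2 := sq_nonneg (δ - 0.1846)
  nlinarith

theorem trap_odd {m : ℕ} (h : m % 2 = 1) {δ : ℝ} (h0 : 0 ≤ δ)
    (hδ : δ ≤ 1.1 / (2*m+3/2)) : (T m : ℝ) ≤ F (m + δ) ∧ F (m+δ) ≤ T m + nar (T m) := by
  have hm1 : 1 ≤ m := by omega
  have hm : (1:ℝ) ≤ m := by exact_mod_cast hm1
  set M : ℝ := 2*m+1 with hM
  have hM3 : 3 ≤ M := by rw [hM]; linarith
  have hMδ : (M + 1/2) * δ ≤ 1.1 := by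
    have h2 := (le_div_iff₀ (by linarith : (0:ℝ) < 2*m+3/2)).1 hδ
    rw [hM]; linarith
  have hδ1 : δ ≤ 0.3143 := by nlinarith
  obtain ⟨hp1, hp2⟩ := pi_sq_bounds
  have hppos := Real.pi_pos
  have hp3 := Real.pi_lt_d6
  have hc1 := Real.cos_le_one (π * δ)
  have hc2 := Real.one_sub_sq_div_two_le_cos (x := π * δ)
  have hδ2 := sq_nonneg δ
  have hc3 : 1 - Real.cos (π*δ) ≤ 4.93485 * δ^2 := by
    have : (π * δ)^2 = π^2 * δ^2 := by ring
    nlinarith [sq_nonneg δ]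
  have hc4 : 4.9345 * δ^2 - 4.0588 * δ^4 ≤ 1 - Real.cos (π*δ) := by
    have h4 := cos_le_four (x := π * δ) (by positivity) (by nlinarith)
    have e1 : (π * δ)^2 = π^2 * δ^2 := by ring
    have e2 : (π * δ)^4 = (π^2)^2 * δ^4 := by ring
    rw [e1, e2] at h4
    have e3 : (π^2)^2 ≤ 97.411 := by nlinarith
    have e4 : 0 ≤ δ^4 := by positivity
    nlinarith
  have hq : δ * (M/4 + δ/2) ≤ 0.2852 := by nlinarith
  have hδ3 : 0 ≤ δ^3 := by positivity
  rw [F_odd h, ← hM]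
  have e0 : δ * (1 + Real.cos (π * δ)/2) - M/4 * (1 - Real.cos (π * δ))
      = 3/2 * δ - (1 - Real.cos (π*δ)) * (M/4 + δ/2) := by ring
  rw [e0]
  have hMδ' : 0 ≤ M/4 + δ/2 := by positivity
  constructor
  · have e2 : (1 - Real.cos (π*δ)) * (M/4 + δ/2) ≤ 4.93485 * δ^2 * (M/4 + δ/2) :=
      mul_le_mul_of_nonneg_right hc3 hMδ'
    have e3 : 4.93485 * δ^2 * (M/4 + δ/2) = 4.93485 * δ * (δ * (M/4 + δ/2)) := by ring
    have e4 : 4.93485 * δ * (δ * (M/4 + δ/2)) ≤ 4.93485 * δ * 0.2852 :=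
      mul_le_mul_of_nonneg_left hq (by positivity)
    nlinarith
  · have e2 : (4.9345 * δ^2 - 4.0588 * δ^4) * (M/4 + δ/2) ≤ (1 - Real.cos (π*δ)) * (M/4 + δ/2) :=
      mul_le_mul_of_nonneg_right hc4 hMδ'
    by_cases hm3 : m = 1
    · subst hm3
      have hM' : M = 3 := by rw [hM]; norm_num
      rw [hM'] at e2 ⊢
      have hT : nar (T 1) = 0.146 := by
        unfold nar T; norm_num
      rw [hT]
      have e5 : 3/2 * δ - (4.9345 * δ^2 - 4.0588 * δ^4) * (3/4 + δ/2) ≤ 0.146 := by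
        have a1 : (4.9345 * δ^2 - 4.0588 * δ^4) * (3/4 + δ/2) =
          3.700875 * δ^2 + 2.46725 * δ^3 - δ^3 * (3.0441 * δ + 2.0294 * δ^2) := by ring
        have a2 : 3.0441 * δ + 2.0294 * δ^2 ≤ 1.158 := by nlinarith
        have a3 : δ^3 * (3.0441 * δ + 2.0294 * δ^2) ≤ δ^3 * 1.158 :=
          mul_le_mul_of_nonneg_left a2 hδ3
        rw [a1]
        have a4 := cubic_aux h0
        linarith
      linarith
    · have hm3' : 3 ≤ m := by omega
      have hm3'' : (3:ℝ) ≤ m := by exact_mod_cast hm3'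
      have hM7 : 7 ≤ M := by rw [hM]; linarith
      have hT : nar (T m) = 1.46 / (3*M+1) := by
        unfold nar; rw [T_odd h, hM]
        field_simp; ring
      rw [hT]
      have a1 : 1.233625 * M * δ^2 ≤ (4.9345 * δ^2 - 4.0588 * δ^4) * (M/4 + δ/2) := by
        have a2 : (4.9345 * δ^2 - 4.0588 * δ^4) * (M/4 + δ/2) - 1.233625 * M * δ^2
          = δ^3 * (2.46725 - 4.0588 * (δ * (M/4 + δ/2))) := by ring
        have a3 : 0 ≤ δ^3 * (2.46725 - 4.0588 * (δ * (M/4 + δ/2))) := by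
          apply mul_nonneg hδ3; linarith
        linarith
      have a4 : 3/2 * δ - 1.233625 * M * δ^2 ≤ 0.456 / M := by
        rw [le_div_iff₀ (by linarith)]
        nlinarith [sq_nonneg (M * δ - 0.608)]
      have a5 : 0.456 / M ≤ 1.46 / (3*M+1) := by
        rw [div_le_div_iff₀ (by linarith) (by linarith)]
        nlinarith
      linarith

/-- The trapping interval at `m`. -/
def I (m : ℕ) : Set ℝ := Set.Icc (m:ℝ) (m + wid m)

theorem trap {m : ℕ} (h1 : 1 ≤ m) {x : ℝ} (hx : x ∈ I m) :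
    (T m : ℝ) ≤ F x ∧ F x ≤ T m + nar (T m) := by
  obtain ⟨hx1, hx2⟩ := hx
  have e : x = m + (x - m) := by ring
  rw [e]
  rcases Nat.mod_two_eq_zero_or_one m with h | h
  · apply trap_even h h1 (by linarith)
    have : wid m = 0.73 / (2*m+1) := by unfold wid; rw [if_pos h]
    linarith
  · apply trap_odd h (by linarith)
    have : wid m = 1.1 / (2*m+3/2) := by unfold wid; rw [if_neg (by omega)]
    linarith

theorem trap_I {m : ℕ} (h1 : 1 ≤ m) {x : ℝ} (hx : x ∈ I m) : F x ∈ I (T m) := by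
  obtain ⟨h2, h3⟩ := trap h1 hx
  exact ⟨h2, h3.trans (by linarith [nar_le_wid (T m)])⟩

theorem trap_iter {m : ℕ} (h1 : 1 ≤ m) {x : ℝ} (hx : x ∈ I m) (k : ℕ) :
    1 ≤ T^[k] m ∧ F^[k] x ∈ I (T^[k] m) := by
  induction k with
  | zero => exact ⟨h1, hx⟩
  | succ k ih =>
    rw [Function.iterate_succ_apply', Function.iterate_succ_apply']
    exact ⟨T_pos ih.1, trap_I ih.1 ih.2⟩

theorem wid_lt_half {m : ℕ} (h1 : 1 ≤ m) : wid m < 1/2 := by
  have hm : (1:ℝ) ≤ m := by exact_mod_cast h1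
  unfold wid
  split_ifs
  · rw [div_lt_iff₀ (by linarith)]; linarith
  · rw [div_lt_iff₀ (by linarith)]; linarith

theorem I_disjoint {m n : ℕ} (hm : 1 ≤ m) (hn : 1 ≤ n) {x : ℝ} (h1 : x ∈ I m) (h2 : x ∈ I n) :
    m = n := by
  have a := wid_lt_half hm
  have b := wid_lt_half hn
  obtain ⟨c1, c2⟩ := h1
  obtain ⟨d1, d2⟩ := h2
  by_contra hne
  rcases Nat.lt_or_gt_of_ne hne with h | h
  · have : (m:ℝ) + 1 ≤ n := by exact_mod_cast h
    linarith
  · have : (n:ℝ) + 1 ≤ m := by exact_mod_cast h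
    linarith

end H488R2.CH
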