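import Pool.Agent.H488R2.CH.Period

/-!
# Shadowing an integer orbit from below
-/

namespace H488R2.CH

open Real

theorem below_odd {m : ℕ} (h : m % 2 = 1) {η : ℝ} (h0 : 0 ≤ η) (h1 : η ≤ 1/2) :
    3/2 * η ≤ T m - F (m - η) ∧ T m - F (m - η) ≤ η * (3/2 + 1.2338 * ((2*m+1) * η)) := by
  have hm1 : 1 ≤ m := by omega
  have hm : (1:ℝ) ≤ m := by exact_mod_cast hm1
  have e0 : (m:ℝ) - η = m + (-η) := by ring
  have e1 : π * (-η) = -(π * η) := by ring
  rw [e0, F_odd h, e1, Real.cos_neg]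
  have hc1 := Real.cos_le_one (π * η)
  have hc2 := Real.one_sub_sq_div_two_le_cos (x := π * η)
  obtain ⟨hp1, hp2⟩ := pi_sq_bounds
  have hη2 : 0 ≤ η^2 := sq_nonneg η
  have hc3 : 1 - Real.cos (π * η) ≤ 4.93485 * η^2 := by
    have e2 : (π * η)^2 = π^2 * η^2 := by ring
    rw [e2] at hc2
    have := mul_le_mul_of_nonneg_right hp2.le hη2
    linarith
  have e3 : (T m : ℝ) - (T m + (-η * (1 + Real.cos (π * η)/2) - (2*(m:ℝ)+1)/4 * (1 - Real.cos (π * η))))
      = 3/2 * η + (1 - Real.cos (π * η)) * ((2*(m:ℝ)+1)/4 - η/2) := by ring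
  rw [e3]
  have hnn : 0 ≤ (2*(m:ℝ)+1)/4 - η/2 := by linarith
  constructor
  · have := mul_nonneg (by linarith : 0 ≤ 1 - Real.cos (π * η)) hnn
    linarith
  · have h2 : (1 - Real.cos (π * η)) * ((2*(m:ℝ)+1)/4 - η/2) ≤ 4.93485 * η^2 * ((2*(m:ℝ)+1)/4) := by
      apply mul_le_mul hc3 (by linarith) hnn (by positivity)
    have h3 : 4.93485 * η^2 * ((2*(m:ℝ)+1)/4) ≤ η * (1.2338 * ((2*m+1) * η)) := by
      have : 0 ≤ η^2 * (2*(m:ℝ)+1) := by positivity
      nlinarith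
    linarith

theorem below_even {m : ℕ} (h : m % 2 = 0) (h1 : 1 ≤ m) {η : ℝ} (h0 : 0 ≤ η)
    (hu : (2*(m:ℝ)+1) * η ≤ 0.75) :
    T m - F (m - η) ≤ η * (1/2 - 1.13 * ((2*m+1) * η)) := by
  have hm2 : 2 ≤ m := by omega
  have hm : (2:ℝ) ≤ m := by exact_mod_cast hm2
  obtain ⟨M, hM⟩ : ∃ M : ℝ, M = 2*(m:ℝ)+1 := ⟨_, rfl⟩
  have hM5 : 5 ≤ M := by rw [hM]; linarith
  rw [← hM] at hu ⊢
  have hη1 : η ≤ 0.15 := by nlinarith
  have e0 : (m:ℝ) - η = m + (-η) := by ring
  have e1 : π * (-η) = -(π * η) := by ring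
  rw [e0, F_even h, e1, Real.cos_neg, ← hM]
  have hlow := one_sub_cos_lower h0 (by linarith : η ≤ 1/2)
  have hη2 : η^2 ≤ 0.0225 := by nlinarith
  have h2 : 4.843 * η^2 ≤ 1 - Real.cos (π * η) := by
    have : 4.0588 * η^4 ≤ 4.0588 * 0.0225 * η^2 := by
      have : η^4 = η^2 * η^2 := by ring
      rw [this]; nlinarith [sq_nonneg η]
    linarith [sq_nonneg η]
  have h3 : 0.235 * M ≤ M/4 - η/2 := by linarith
  have h4 : 4.843 * η^2 * (0.235 * M) ≤ (1 - Real.cos (π * η)) * (M/4 - η/2) := by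
    apply mul_le_mul h2 h3 (by positivity)
    have := Real.cos_le_one (π * η); linarith
  have h5 : η * (1.13 * (M * η)) ≤ 4.843 * η^2 * (0.235 * M) := by
    have : 0 ≤ η^2 * M := by positivity
    nlinarith
  have e3 : (T m : ℝ) - (T m + (M/4 * (1 - Real.cos (π * η)) + -η * (1 - Real.cos (π * η)/2)))
      = η/2 - (1 - Real.cos (π * η)) * (M/4 - η/2) := by ring
  rw [e3]
  linarith

/-- the image of a contraction point below an even integer `n` is extremely close to `n/2` -/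
theorem below_even_image {m : ℕ} (h : m % 2 = 0) (h1 : 1 ≤ m) {η : ℝ} (h0 : 0 ≤ η)
    (hu : (2*(m:ℝ)+1) * η ≤ 0.75) :
    (2*(m:ℝ)+1) * (T m - F (m - η)) ≤ 0.0554 := by
  have h2 := below_even h h1 h0 hu
  obtain ⟨M, hM⟩ : ∃ M : ℝ, M = 2*(m:ℝ)+1 := ⟨_, rfl⟩
  have hM0 : 0 < M := by rw [hM]; positivity
  rw [← hM] at hu h2 ⊢
  have h3 : M * (T m - F (m - η)) ≤ M * (η * (1/2 - 1.13 * (M * η))) :=
    mul_le_mul_of_nonneg_left h2 hM0.le
  have h4 : M * (η * (1/2 - 1.13 * (M * η))) = (M*η)/2 - 1.13 * (M*η)^2 := by ring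
  rw [h4] at h3
  nlinarith [sq_nonneg (M * η - 0.2212)]

/-- orbit points which lie in no trapping interval -/
def Free (x : ℝ) : Prop := ∀ k m : ℕ, 1 ≤ m → F^[k] x ∉ I m

/-- state: `x` lies just below the integer `m` with `u ≤ 0.43` -/
structure St (φ1 : ℝ) (m : ℕ) (x : ℝ) : Prop where
  pos : 1 ≤ m
  lt : x < m
  u_le : (2*(m:ℝ)+1) * (m - x) ≤ 0.43
  V_le : (m - x) ≤ φ1 * (2*(m:ℝ)+1) * (1 + (2*(m:ℝ)+1) * (m - x))

/-- one step of the shadowing from below -/
theorem St.step {φ1 : ℝ} {m : ℕ} {x : ℝ} (hs : St φ1 m x)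
    (hfree : F x ∉ I (T m)) (hB : φ1 * (2*(T m:ℝ)+1)^2 ≤ 0.3) :
    St φ1 (T m) (F x) ∧
      (m % 2 = 0 → (T m - F x) * (2*(m:ℝ)+1) * (1 + (2*(m:ℝ)+1) * (m - x)) < (m - x) * (2*(T m:ℝ)+1) ) := by
  obtain ⟨hpos, hlt, hu, hV⟩ := hs
  have hm1 : (1:ℝ) ≤ m := by exact_mod_cast hpos
  obtain ⟨η, hη⟩ : ∃ η, η = m - x := ⟨_, rfl⟩
  obtain ⟨M, hM⟩ : ∃ M : ℝ, M = 2*(m:ℝ)+1 := ⟨_, rfl⟩
  have hx : x = m - η := by rw [hη]; ring
  rw [← hη, ← hM] at hu hV
  have hη0 : 0 < η := by rw [hη]; linarith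
  have hM3 : 3 ≤ M := by rw [hM]; linarith
  have hη1 : η ≤ 0.15 := by nlinarith
  have huu : 0 < M * η := by positivity
  have hTpos : (1:ℝ) ≤ T m := by exact_mod_cast T_pos hpos
  obtain ⟨M', hM'⟩ : ∃ M' : ℝ, M' = 2*(T m:ℝ)+1 := ⟨_, rfl⟩
  have hM'3 : 3 ≤ M' := by rw [hM']; linarith
  rw [← hM'] at hB
  obtain ⟨η', hη'⟩ : ∃ η', η' = T m - F x := ⟨_, rfl⟩
  -- it suffices to have positivity and the V inequality
  have suff : 0 < η' → η' * M * (1 + M * η) ≤ η * M' * (1 + M' * η') → St φ1 (T m) (F x) := by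
    intro hp hV'
    have hVn : η' ≤ φ1 * M' * (1 + M' * η') := by
      -- η' M (1+Mη) ≤ η M' (1+M'η') ≤ φ1 M (1+Mη) M' (1+M'η')
      have h1 : η * M' * (1 + M' * η') ≤ φ1 * M * (1 + M * η) * (M' * (1 + M' * η')) := by
        have := mul_le_mul_of_nonneg_right hV (by positivity : 0 ≤ M' * (1 + M' * η'))
        linarith
      have h2 : η' * (M * (1 + M * η)) ≤ (φ1 * M' * (1 + M' * η')) * (M * (1 + M * η)) := by
        calc η' * (M * (1 + M * η)) = η' * M * (1 + M * η) := by ring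
          _ ≤ φ1 * M * (1 + M * η) * (M' * (1 + M' * η')) := hV'.trans h1
          _ = _ := by ring
      exact le_of_mul_le_mul_right h2 (by positivity)
    have hu' : M' * η' ≤ 0.43 := by
      have h1 : M' * η' ≤ M' * (φ1 * M' * (1 + M' * η')) := mul_le_mul_of_nonneg_left hVn (by linarith)
      have h2 : M' * (φ1 * M' * (1 + M' * η')) = φ1 * M'^2 * (1 + M' * η') := by ring
      have h3 : φ1 * M'^2 * (1 + M' * η') ≤ 0.3 * (1 + M' * η') :=
        mul_le_mul_of_nonneg_right hB (by positivity)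
      nlinarith
    refine ⟨T_pos hpos, by linarith, ?_, ?_⟩
    · rw [← hM', ← hη']; exact hu'
    · rw [← hM', ← hη']; exact hVn
  rcases Nat.mod_two_eq_zero_or_one m with h | h
  · -- even
    have hm2 : 2 ≤ m := by omega
    have hM5 : 5 ≤ M := by
      have : (2:ℝ) ≤ m := by exact_mod_cast hm2
      rw [hM]; linarith
    have h2 := below_even h hpos (η := η) hη0.le (by rw [← hM]; linarith)
    rw [← hx, ← hM, ← hη'] at h2
    have hη'0 : 0 < η' := by
      by_contra hle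
      push Not at hle
      apply hfree
      have h3 := trap_from_below h hpos hη0.le (by rw [← hM]; linarith)
      rw [← hx] at h3
      exact ⟨by linarith, h3.trans (by linarith [nar_le_wid (T m)])⟩
    have hMM : M' = (M+1)/2 := by
      rw [hM', T_even h, hM]; ring
    -- strict inequality
    have hstrict : η' * M * (1 + M * η) < η * M' := by
      have h3 : η' * M * (1 + M * η) ≤ η * (1/2 - 1.13 * (M * η)) * M * (1 + M * η) := by
        apply mul_le_mul_of_nonneg_right _ (by positivity)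
        apply mul_le_mul_of_nonneg_right h2 (by positivity)
      have h4 : η * (1/2 - 1.13 * (M * η)) * M * (1 + M * η) =
        η * M * ((1/2 - 1.13 * (M * η)) * (1 + M * η)) := by ring
      have h5 : (1/2 - 1.13 * (M * η)) * (1 + M * η) ≤ 1/2 := by nlinarith
      have h6 : η * M * ((1/2 - 1.13 * (M * η)) * (1 + M * η)) ≤ η * M * (1/2) :=
        mul_le_mul_of_nonneg_left h5 (by positivity)
      have h7 : η * M * (1/2) < η * M' := by rw [hMM]; nlinarith
      linarith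
    refine ⟨suff hη'0 ?_, fun _ => ?_⟩
    · have : η * M' ≤ η * M' * (1 + M' * η') := by
        have : 0 ≤ η * M' * (M' * η') := by positivity
        linarith
      linarith
    · rw [← hη', ← hη, ← hM, ← hM']; exact hstrict
  · -- odd
    have h2 := below_odd h (η := η) hη0.le (by linarith)
    rw [← hx, ← hM, ← hη'] at h2
    have hη'0 : 0 < η' := by linarith [h2.1]
    have hMM : M' = (3*M+1)/2 := by
      rw [hM', T_odd h, hM]; ring
    refine ⟨suff hη'0 ?_, fun h' => by omega⟩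
    -- η' M (1+u) ≤ η (3/2+1.2338 u) M (1+u);   η M' (1+M'η') ≥ η (3/2) M (1 + 2.25 u)
    have h3 : η' * M * (1 + M * η) ≤ η * (3/2 + 1.2338 * (M * η)) * M * (1 + M * η) := by
      apply mul_le_mul_of_nonneg_right _ (by positivity)
      apply mul_le_mul_of_nonneg_right h2.2 (by positivity)
    have h4 : η * (3/2) * M * (1 + 2.25 * (M * η)) ≤ η * M' * (1 + M' * η') := by
      have a1 : (3/2) * M ≤ M' := by rw [hMM]; linarith
      have a2 : 2.25 * (M * η) ≤ M' * η' := by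
        have : (3/2) * M * (3/2 * η) ≤ M' * η' := by
          apply mul_le_mul a1 h2.1 (by positivity) (by positivity)
        linarith
      calc η * (3/2) * M * (1 + 2.25 * (M * η)) = η * ((3/2 * M) * (1 + 2.25 * (M * η))) := by ring
        _ ≤ η * (M' * (1 + M' * η')) := by
          apply mul_le_mul_of_nonneg_left _ hη0.le
          apply mul_le_mul a1 (by linarith) (by positivity) (by positivity)
        _ = _ := by ring
    have h5 : η * (3/2 + 1.2338 * (M * η)) * M * (1 + M * η) ≤ η * (3/2) * M * (1 + 2.25 * (M * η)) := by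
      have a1 : (3/2 + 1.2338 * (M * η)) * (1 + M * η) ≤ 3/2 * (1 + 2.25 * (M * η)) := by nlinarith
      have := mul_le_mul_of_nonneg_left a1 (by positivity : 0 ≤ η * M)
      calc η * (3/2 + 1.2338 * (M * η)) * M * (1 + M * η)
          = η * M * ((3/2 + 1.2338 * (M * η)) * (1 + M * η)) := by ring
        _ ≤ η * M * (3/2 * (1 + 2.25 * (M * η))) := this
        _ = _ := by ring
    linarith

theorem iter_mul_periodic {x : ℝ} {p : ℕ} (hx : F^[p] x = x) (j : ℕ) : F^[j*p] x = x := by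
  induction j with
  | zero => simp
  | succ j ih => rw [Nat.succ_mul, Function.iterate_add_apply, hx, ih]

/-- The Collatz orbit of `n` must make an excursion above `3n/2`. -/
theorem excursion {x : ℝ} {p : ℕ} (hp : 0 < p) (hx : F^[p] x = x)
    (hfree : ∀ k m : ℕ, 1 ≤ m → F^[k] x ∉ I m) {n : ℕ} (hev : n % 2 = 0) (hn : 2 ≤ n)
    (hlt : x < n) (hu : (2*(n:ℝ)+1) * (n - x) < 0.75) (hFx : F x < T n) :
    ∃ k, 3 * n < 2 * T^[k] n := by
  by_contra hno
  push Not at hno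
  have hn2 : (2:ℝ) ≤ n := by exact_mod_cast hn
  obtain ⟨M0, hM0⟩ : ∃ M0 : ℝ, M0 = 2*(n:ℝ)+1 := ⟨_, rfl⟩
  obtain ⟨M1, hM1⟩ : ∃ M1 : ℝ, M1 = 2*(T n:ℝ)+1 := ⟨_, rfl⟩
  have hM5 : 5 ≤ M0 := by rw [hM0]; linarith
  have hMM : M1 = (M0+1)/2 := by rw [hM1, T_even hev, hM0]; ring
  obtain ⟨η1, hη1⟩ : ∃ η1, η1 = T n - F x := ⟨_, rfl⟩
  have hη1pos : 0 < η1 := by linarith
  have himg : M0 * η1 ≤ 0.0554 := by
    have := below_even_image hev (by omega : 1 ≤ n) (η := n - x) (by linarith) hu.le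
    have e : (n:ℝ) - (n - x) = x := by ring
    rw [e] at this
    rw [hM0, hη1]; exact this
  obtain ⟨φ1, hφ1⟩ : ∃ φ1, φ1 = η1 / M1 := ⟨_, rfl⟩
  have hM1pos : 0 < M1 := by rw [hMM]; linarith
  have hφ1' : η1 = φ1 * M1 := by rw [hφ1]; field_simp
  -- bound for all k
  have hB : ∀ k, φ1 * (2*(T^[k] n:ℝ)+1)^2 ≤ 0.3 := by
    intro k
    have h1 := hno k
    have h2 : 2 * (T^[k] n : ℝ) ≤ 3 * n := by exact_mod_cast h1
    have h3 : (2*(T^[k] n:ℝ)+1) ≤ 3/2 * M0 := by rw [hM0]; linarith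
    have h4 : (2*(T^[k] n:ℝ)+1)^2 ≤ (3/2 * M0)^2 := by
      apply pow_le_pow_left₀ _ h3
      positivity
    have hφpos : 0 < φ1 := by rw [hφ1]; positivity
    calc φ1 * (2*(T^[k] n:ℝ)+1)^2 ≤ φ1 * (3/2 * M0)^2 := mul_le_mul_of_nonneg_left h4 hφpos.le
      _ = 9/4 * (φ1 * M0^2) := by ring
      _ ≤ 0.3 := by
        -- φ1 M0² = η1 M0² / M1 = (M0 η1) (M0/M1) ≤ 0.0554 * 2
        have : φ1 * M0^2 * M1 = (M0 * η1) * M0 := by rw [hφ1']; ring
        have h5 : φ1 * M0^2 * M1 ≤ 0.0554 * M0 := by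
          rw [this]; exact mul_le_mul_of_nonneg_right himg (by linarith)
        have h6 : φ1 * M0^2 * M1 ≤ (2 * 0.0554) * M1 := by rw [hMM] at h5 ⊢; linarith
        have h7 : φ1 * M0^2 ≤ 2 * 0.0554 := le_of_mul_le_mul_right h6 hM1pos
        linarith
  -- the invariant
  have hSt : ∀ k, St φ1 (T^[k+1] n) (F^[k+1] x) := by
    intro k
    induction k with
    | zero =>
      simp only [Nat.zero_add, Function.iterate_one]
      refine ⟨T_pos (by omega), hFx, ?_, ?_⟩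
      · rw [← hM1, ← hη1]
        have : M1 * η1 ≤ M0 * η1 := by
          apply mul_le_mul_of_nonneg_right _ hη1pos.le
          rw [hMM]; linarith
        linarith
      · rw [← hM1, ← hη1]
        have : 0 ≤ φ1 * M1 * (M1 * η1) := by rw [← hφ1']; positivity
        have e : φ1 * M1 * (1 + M1 * η1) = φ1 * M1 + φ1 * M1 * (M1 * η1) := by ring
        rw [e, ← hφ1']
        have h8 : 0 ≤ η1 * (M1 * η1) := by positivity
        linarith
    | succ k ih =>
      have h1 := ih.step (by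
        rw [← Function.iterate_succ_apply' F]
        exact hfree _ _ (T_pos ih.pos)) (by
        rw [← Function.iterate_succ_apply' T]
        exact hB _)
      rw [Function.iterate_succ_apply' T, Function.iterate_succ_apply' F]
      exact h1.1
  obtain ⟨q, rfl⟩ : ∃ q, p = q + 1 := ⟨p - 1, by omega⟩
  have hS := hSt q
  rw [hx] at hS
  -- `T^[p] n = n`
  have hTn : T^[q+1] n = n := by
    have h1 := hS.lt
    have h2 := hS.u_le
    have h3 : (1:ℝ) ≤ T^[q+1] n := by exact_mod_cast hS.pos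
    have h4 : (T^[q+1] n : ℝ) - x < 1/2 := by nlinarith
    have h5 : (n:ℝ) - x < 1/2 := by nlinarith
    have h6 : (T^[q+1] n : ℝ) < n + 1 := by linarith
    have h7 : (n:ℝ) < T^[q+1] n + 1 := by linarith
    have h8 : T^[q+1] n < n + 1 := by exact_mod_cast h6
    have h9 : n < T^[q+1] n + 1 := by exact_mod_cast h7
    omega
  rw [hTn] at hS
  have hstep := hS.step (hfree 1 _ (T_pos (by omega))) (by
    have := hB 1
    simpa using this)
  have h1 := hstep.2 hev
  rw [← hη1, ← hM0, ← hM1] at h1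
  have h2 := hS.V_le
  rw [← hM0] at h2
  have h3 : (n - x) * M1 ≤ φ1 * M0 * (1 + M0 * (n - x)) * M1 :=
    mul_le_mul_of_nonneg_right h2 hM1pos.le
  have h4 : φ1 * M0 * (1 + M0 * (n - x)) * M1 = η1 * M0 * (1 + M0 * (n - x)) := by
    rw [hφ1']; ring
  linarith

end H488R2.CH
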