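import Pool.Agent.H488R2.CH.Below

/-!
# The trichotomy for attracting cycles
-/

namespace H488R2.CH

open Real

theorem G_lower_pt : (1.1925:ℝ) < G 1.1925 := by
  have h := G_chain (a := 0.1925) (b := 0.1925) (x := 0.1925) (e := 0.138658) (by norm_num)
    (by norm_num) le_rfl le_rfl (by norm_num) (by norm_num) (by norm_num)
  norm_num at h ⊢
  linarith

theorem G_upper_pt : G 1.1927 < 1.1927 := by
  have h1 := F_one_upper (a := 0.1927) (by norm_num) (by norm_num)
  have h2 := F_one_ge_two (a := 0.1927) (by norm_num) (by norm_num)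
  have e : F (1 + 0.1927) = 2 + (F (1+0.1927) - 2) := by ring
  have h3 : F (1 + 0.1927) ≤ 2.1387 := by norm_num at h1 ⊢; linarith
  have h4 := F_two_mono (a := F (1+0.1927) - 2) (b := 0.1387) (by linarith) (by linarith) (by norm_num)
  have h5 := F_two_upper (a := 0.1387) (by norm_num) (by norm_num)
  rw [← e] at h4
  unfold G
  norm_num at h4 h5 ⊢
  linarith

theorem exists_a2 : ∃ a, 1.1925 ≤ a ∧ a ≤ 1.1927 ∧ G a = a := by
  have hc : ContinuousOn (fun x => G x - x) (Set.Icc 1.1925 1.1927) :=
    (G_continuous.sub continuous_id).continuousOn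
  have := intermediate_value_Icc' (by norm_num : (1.1925:ℝ) ≤ 1.1927) hc
  obtain ⟨a, ha, h⟩ := this (show (0:ℝ) ∈ Set.Icc (G 1.1927 - 1.1927) (G 1.1925 - 1.1925) from
    ⟨by linarith [G_upper_pt], by linarith [G_lower_pt]⟩)
  exact ⟨a, ha.1, ha.2, by simpa [sub_eq_zero] using h⟩

theorem b2_bounds {a : ℝ} (h1 : 1.1925 ≤ a) (h2 : a ≤ 1.1927) : 2.1386 ≤ F a ∧ F a ≤ 2.1388 := by
  have e : a = 1 + (a - 1) := by ring
  constructor
  · rw [e]
    apply F_ge_min (a := 0.1925) (b := 0.1927) (by norm_num) (by linarith) (by linarith) (by norm_num)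
    · have := F_one_lower (a := 0.1925) (by norm_num) (by norm_num)
      norm_num at this ⊢; linarith
    · have := F_one_lower (a := 0.1927) (by norm_num) (by norm_num)
      norm_num at this ⊢; linarith
  · -- `F` is decreasing beyond `1.183`
    have hd : F a ≤ F 1.1925 := by
      rcases eq_or_lt_of_le h1 with h3 | h3
      · rw [← h3]
      · obtain ⟨z, hz, hP⟩ := exists_hasDerivAt_eq_slope F F' h3
          (fun t _ => (hasDerivAt_F t).continuousAt.continuousWithinAt)
          (fun t _ => hasDerivAt_F t)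
        have h4 : F' z ≤ 0 := by
          have a1 := F'_one_anti (a := 0.183) (b := z - 1) (by norm_num) (by linarith [hz.1])
            (by linarith [hz.2])
          have a2 := F'_one_upper (a := 0.183) (by norm_num) (by norm_num)
          have e2 : 1 + (z - 1) = z := by ring
          rw [e2] at a1
          norm_num at a1 a2 ⊢; linarith
        rw [hP] at h4
        have h5 : 0 < a - 1.1925 := by linarith
        by_contra h6
        push Not at h6
        have : 0 < (F a - F 1.1925) / (a - 1.1925) := div_pos (by linarith) h5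
        linarith
    have h6 := F_one_upper (a := 0.1925) (by norm_num) (by norm_num)
    norm_num at h6 hd ⊢
    linarith

theorem deriv_G_two (a : ℝ) : deriv (F^[2]) a = P a := by
  rw [deriv_iter]
  simp [Finset.prod_range_succ, P, mul_comm]

/-- periodic orbit through `x` shadows `n`; if it passes over `1` then it is `A₁` or `A₂`. -/
theorem trivial_shadow {a x : ℝ} (ha : a ∈ J) (hfa : G a = a) {p : ℕ} (hp : 0 < p)
    (hx : F^[p] x = x) (hm : |mul' p x| < 1) {n : ℕ}
    (hI : ∀ k, 1 ≤ T^[k] n ∧ F^[k] x ∈ I (T^[k] n)) {k : ℕ} (hk : T^[k] n = 1) :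
    x = 1 ∨ x = 2 ∨ x = a ∨ x = F a := by
  have h1 := (hI k).2
  rw [hk] at h1
  have h2 := attracting_I_one ha hfa h1 hp (iter_periodic hx k) (by rw [mul'_iter hx k]; exact hm)
  -- go back to x
  have h3 : F^[k*p - k] (F^[k] x) = x := by
    rw [← Function.iterate_add_apply]
    have : k ≤ k * p := Nat.le_mul_of_pos_right k hp
    have e : k * p - k + k = k * p := by omega
    rw [e, iter_mul_periodic hx k]
  have orb1 : ∀ j, F^[j] (1:ℝ) = 1 ∨ F^[j] (1:ℝ) = 2 := by
    intro j
    induction j with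
    | zero => left; rfl
    | succ j ih =>
      rw [Function.iterate_succ_apply']
      rcases ih with h | h
      · right; rw [h, F_one_eq]
      · left; rw [h, F_two_eq]
  have orba : ∀ j, F^[j] a = a ∨ F^[j] a = F a := by
    intro j
    induction j with
    | zero => left; rfl
    | succ j ih =>
      rw [Function.iterate_succ_apply']
      rcases ih with h | h
      · right; rw [h]
      · left; rw [h]; exact hfa
  rcases h2 with h2 | h2
  · rw [h2] at h3
    rcases orb1 (k*p-k) with h | h
    · left; rw [← h3, h]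
    · right; left; rw [← h3, h]
  · rw [h2] at h3
    rcases orba (k*p-k) with h | h
    · right; right; left; rw [← h3, h]
    · right; right; right; rw [← h3, h]

theorem wid_le (m : ℕ) : wid m ≤ 1.1 / (2 * m + 1) := by
  unfold wid
  split_ifs
  · apply div_le_div_of_nonneg_right (by norm_num) (by positivity)
  · apply div_le_div_of_nonneg_left (by norm_num) (by positivity) (by linarith)

theorem trichotomy {a : ℝ} (ha : a ∈ J) (hfa : G a = a) {x : ℝ} (h0 : 0 < x) {p : ℕ} (hp : 0 < p)
    (hx : F^[p] x = x) (hm : |mul' p x| < 1) :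
    (x = 1 ∨ x = 2 ∨ x = a ∨ x = F a) ∨
    (∃ n : ℕ, T^[p] n = n ∧ ∀ k, 3 ≤ T^[k] n ∧ (T^[k] n : ℝ) ≤ F^[k] x ∧
      F^[k] x ≤ T^[k] n + 1.1 / (2 * T^[k] n + 1)) ∨
    (∀ k, |F' (F^[k] x)| < 1 → ∃ n : ℕ, n % 2 = 0 ∧ (n:ℝ) - 0.75 / (2 * n + 1) < F^[k] x ∧
      F^[k] x < n ∧ (n:ℝ)/2 - 0.0554 / (2 * n + 1) ≤ F^[k+1] x ∧ F^[k+1] x < (n:ℝ)/2 ∧
      ∃ j, 3 * n < 2 * T^[j] n) := by
  by_cases hfree : ∀ k m : ℕ, 1 ≤ m → F^[k] x ∉ I m
  · right; right
    intro k hk
    rcases local_dichotomy (iter_pos h0 k) hp (iter_periodic hx k) hk with h | h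
    · obtain ⟨n, hn, hmem⟩ := h
      exact absurd hmem (hfree k n hn)
    · obtain ⟨n, h1, h2, h3, h4, h5⟩ := h
      have hM : (0:ℝ) < 2*n+1 := by positivity
      have hexc := excursion hp (iter_periodic hx k) (fun j m hm' => by
        rw [← Function.iterate_add_apply]; exact hfree _ _ hm') h1 h2 h3 h4 h5
      refine ⟨n, h1, ?_, h3, ?_, ?_, hexc⟩
      · have : (n:ℝ) - F^[k] x < 0.75 / (2*n+1) := by rw [lt_div_iff₀ hM]; linarith
        linarith
      · have h6 := below_even_image h1 (by omega : 1 ≤ n) (η := n - F^[k] x) (by linarith) h4.le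
        have e : (n:ℝ) - (n - F^[k] x) = F^[k] x := by ring
        rw [e, T_even h1] at h6
        have h7 : (n:ℝ)/2 - F (F^[k] x) ≤ 0.0554 / (2*n+1) := by rw [le_div_iff₀ hM]; linarith
        rw [Function.iterate_succ_apply']
        linarith
      · rw [Function.iterate_succ_apply', ← T_even h1]; exact h5
  · push Not at hfree
    obtain ⟨k0, m0, hm0, hmem⟩ := hfree
    -- shadowing
    have h1 := trap_iter hm0 hmem (k0 * p - k0)
    have h2 : F^[k0*p - k0] (F^[k0] x) = x := by
      rw [← Function.iterate_add_apply]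
      have : k0 ≤ k0 * p := Nat.le_mul_of_pos_right k0 hp
      have e : k0 * p - k0 + k0 = k0 * p := by omega
      rw [e, iter_mul_periodic hx k0]
    rw [h2] at h1
    obtain ⟨hT, hI⟩ := shadow_of_mem hx h1.1 h1.2
    obtain ⟨n, hn⟩ : ∃ n, n = T^[k0 * p - k0] m0 := ⟨_, rfl⟩
    rw [← hn] at hT hI
    by_cases hone : ∃ k, T^[k] n = 1
    · obtain ⟨k, hk⟩ := hone
      left
      exact trivial_shadow ha hfa hp hx hm hI hk
    · right; left
      push Not at hone
      refine ⟨n, hT, fun k => ?_⟩
      obtain ⟨h3, h4⟩ := hI k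
      refine ⟨?_, h4.1, h4.2.trans (by linarith [wid_le (T^[k] n)])⟩
      by_contra hlt
      have h5 := hone k
      have h6 : T^[k] n = 2 := by omega
      apply hone (k+1)
      rw [Function.iterate_succ_apply', h6]; simp [T]

end H488R2.CH
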