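import Pool.Agent.H488R2.CH.Structure

/-!
# Numerical estimates for `F` near `1` and `2`
-/

namespace H488R2.CH

open Real

theorem sin_le_five {x : ℝ} (h0 : 0 ≤ x) (h4 : x ≤ 4) : Real.sin x ≤ x - x^3/6 + x^5/120 := by
  have hder : ∀ y : ℝ, HasDerivAt (fun z : ℝ => z - z^3/6 + z^5/120 - Real.sin z)
      (1 - y^2/2 + y^4/24 - Real.cos y) y := by
    intro y
    have h1 := hasDerivAt_id y
    have h2 := (hasDerivAt_pow 3 y).div_const 6
    have h3 := (hasDerivAt_pow 5 y).div_const 120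
    have h5 := ((h1.sub h2).add h3).sub (Real.hasDerivAt_sin y)
    refine h5.congr_deriv ?_ |>.congr_of_eventuallyEq ?_
    · norm_num; ring
    · exact Filter.Eventually.of_forall (fun z => by simp)
  have hmono : MonotoneOn (fun z : ℝ => z - z^3/6 + z^5/120 - Real.sin z) (Set.Icc 0 4) := by
    apply monotoneOn_of_deriv_nonneg (convex_Icc 0 4)
    · exact fun y _ => (hder y).continuousAt.continuousWithinAt
    · exact fun y _ => (hder y).differentiableAt.differentiableWithinAt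
    · intro y hy
      rw [interior_Icc] at hy
      rw [(hder y).deriv]
      have := cos_le_four hy.1.le hy.2.le
      linarith
  have := hmono (Set.left_mem_Icc.2 (by norm_num)) ⟨h0, h4⟩ h0
  simp at this
  linarith

theorem cos_ge_six {x : ℝ} (h0 : 0 ≤ x) (h4 : x ≤ 4) :
    1 - x^2/2 + x^4/24 - x^6/720 ≤ Real.cos x := by
  have h := sin_le_five (x := x/2) (by linarith) (by linarith)
  have hs : 0 ≤ Real.sin (x/2) := Real.sin_nonneg_of_nonneg_of_le_pi (by linarith)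
    (by linarith [Real.pi_gt_d2])
  have h2 : (Real.sin (x/2))^2 ≤ (x/2 - (x/2)^3/6 + (x/2)^5/120)^2 :=
    pow_le_pow_left₀ hs h 2
  have h3 : Real.cos x = 1 - 2 * (Real.sin (x/2))^2 := by
    have := Real.cos_two_mul (x/2)
    have h5 := Real.sin_sq_add_cos_sq (x/2)
    have h6 : 2 * (x/2) = x := by ring
    rw [h6] at this
    rw [this]; linarith
  rw [h3]
  have h7 : 2 * (x/2 - (x/2)^3/6 + (x/2)^5/120)^2 =
      x^2/2 - x^4/24 + x^6/720 - x^8 * (1/46080 - x^2/7372800) := by ring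
  have h8 : 0 ≤ x^8 * (1/46080 - x^2/7372800) := by
    apply mul_nonneg (by positivity)
    nlinarith
  linarith

theorem pi_sq' : 9.8696 < π^2 ∧ π^2 < 9.86961 := by
  have h1 := Real.pi_gt_d6
  have h2 := Real.pi_lt_d6
  constructor <;> nlinarith

theorem pi_four' : 97.408 < π^4 ∧ π^4 < 97.4093 := by
  obtain ⟨h1, h2⟩ := pi_sq'
  have : π^4 = (π^2)^2 := by ring
  rw [this]
  constructor <;> nlinarith

theorem pi_six' : π^6 < 961.393 := by
  obtain ⟨h1, h2⟩ := pi_sq'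
  obtain ⟨h3, h4⟩ := pi_four'
  have : π^6 = π^2 * π^4 := by ring
  rw [this]
  nlinarith

theorem one_sub_cos_upper {a : ℝ} (h0 : 0 ≤ a) (h1 : a ≤ 1/2) :
    1 - Real.cos (π * a) ≤ 4.934805 * a^2 - 4.0586 * a^4 + 1.3353 * a^6 := by
  have hp := Real.pi_pos
  have h := cos_ge_six (x := π * a) (by positivity) (by nlinarith [Real.pi_lt_d2])
  obtain ⟨h1, h2⟩ := pi_sq'
  obtain ⟨h3, h4⟩ := pi_four'
  have h6 := pi_six'
  have e1 : (π * a)^2 = π^2 * a^2 := by ring
  have e2 : (π * a)^4 = π^4 * a^4 := by ring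
  have e3 : (π * a)^6 = π^6 * a^6 := by ring
  rw [e1, e2, e3] at h
  have a2 : 0 ≤ a^2 := by positivity
  have a4 : 0 ≤ a^4 := by positivity
  have a6 : 0 ≤ a^6 := by positivity
  have b1 := mul_le_mul_of_nonneg_right h2.le a2
  have b2 := mul_le_mul_of_nonneg_right h3.le a4
  have b3 := mul_le_mul_of_nonneg_right h6.le a6
  linarith

theorem one_sub_cos_lower {a : ℝ} (h0 : 0 ≤ a) (h1 : a ≤ 1/2) :
    4.9348 * a^2 - 4.0588 * a^4 ≤ 1 - Real.cos (π * a) := by
  have hp := Real.pi_pos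
  have h := cos_le_four (x := π * a) (by positivity) (by nlinarith [Real.pi_lt_d2])
  obtain ⟨h1, h2⟩ := pi_sq'
  obtain ⟨h3, h4⟩ := pi_four'
  have e1 : (π * a)^2 = π^2 * a^2 := by ring
  have e2 : (π * a)^4 = π^4 * a^4 := by ring
  rw [e1, e2] at h
  have a2 : 0 ≤ a^2 := by positivity
  have a4 : 0 ≤ a^4 := by positivity
  have b1 := mul_le_mul_of_nonneg_right h1.le a2
  have b2 := mul_le_mul_of_nonneg_right h4.le a4
  linarith

theorem F_one (a : ℝ) : F (1 + a) = 2 + (3/2 * a - (1 - Real.cos (π*a)) * (3/4 + a/2)) := by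
  have h := F_odd (m := 1) (by norm_num) a
  have hT : T 1 = 2 := by unfold T; norm_num
  rw [hT] at h
  push_cast at h
  rw [h]; ring

theorem F_two (a : ℝ) : F (2 + a) = 1 + ((1 - Real.cos (π*a)) * (5/4 + a/2) + a/2) := by
  have h := F_even (m := 2) (by norm_num) a
  have hT : T 2 = 1 := by unfold T; norm_num
  rw [hT] at h
  push_cast at h
  rw [h]; ring

theorem F_one_lower {a : ℝ} (h0 : 0 ≤ a) (h1 : a ≤ 1/2) :
    2 + (3/2 * a - (4.934805 * a^2 - 4.0586 * a^4 + 1.3353 * a^6) * (3/4 + a/2)) ≤ F (1 + a) := by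
  rw [F_one]
  have := mul_le_mul_of_nonneg_right (one_sub_cos_upper h0 h1) (by positivity : 0 ≤ 3/4 + a/2)
  linarith

theorem F_one_upper {a : ℝ} (h0 : 0 ≤ a) (h1 : a ≤ 1/2) :
    F (1 + a) ≤ 2 + (3/2 * a - (4.9348 * a^2 - 4.0588 * a^4) * (3/4 + a/2)) := by
  rw [F_one]
  have := mul_le_mul_of_nonneg_right (one_sub_cos_lower h0 h1) (by positivity : 0 ≤ 3/4 + a/2)
  linarith

theorem F_two_lower {a : ℝ} (h0 : 0 ≤ a) (h1 : a ≤ 1/2) :
    1 + ((4.9348 * a^2 - 4.0588 * a^4) * (5/4 + a/2) + a/2) ≤ F (2 + a) := by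
  rw [F_two]
  have := mul_le_mul_of_nonneg_right (one_sub_cos_lower h0 h1) (by positivity : 0 ≤ 5/4 + a/2)
  linarith

theorem F_two_upper {a : ℝ} (h0 : 0 ≤ a) (h1 : a ≤ 1/2) :
    F (2 + a) ≤ 1 + ((4.934805 * a^2 - 4.0586 * a^4 + 1.3353 * a^6) * (5/4 + a/2) + a/2) := by
  rw [F_two]
  have := mul_le_mul_of_nonneg_right (one_sub_cos_upper h0 h1) (by positivity : 0 ≤ 5/4 + a/2)
  linarith

theorem F_two_mono {a b : ℝ} (h0 : 0 ≤ a) (hab : a ≤ b) (h1 : b ≤ 1/2) : F (2 + a) ≤ F (2 + b) := by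
  rw [F_two, F_two]
  have hp := Real.pi_pos
  have hcos : Real.cos (π * b) ≤ Real.cos (π * a) := by
    apply Real.cos_le_cos_of_nonneg_of_le_pi
    · positivity
    · nlinarith
    · exact mul_le_mul_of_nonneg_left hab hp.le
  have hc := Real.cos_le_one (π * a)
  have : (1 - Real.cos (π*a)) * (5/4 + a/2) ≤ (1 - Real.cos (π*b)) * (5/4 + b/2) := by
    apply mul_le_mul <;> linarith
  linarith

theorem F'_one (a : ℝ) : F' (1 + a) = 1 + Real.cos (π*a)/2 - π/4 * ((3 + 2*a) * Real.sin (π*a)) := by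
  have h := F'_odd (m := 1) (by norm_num) a
  push_cast at h
  rw [h]; ring

theorem F'_two (a : ℝ) : F' (2 + a) = 1 - Real.cos (π*a)/2 + π/4 * ((5 + 2*a) * Real.sin (π*a)) := by
  have h := F'_even (m := 2) (by norm_num) a
  push_cast at h
  rw [h]; ring

theorem F'_one_anti {a b : ℝ} (h0 : 0 ≤ a) (hab : a ≤ b) (h1 : b ≤ 1/2) : F' (1+b) ≤ F' (1+a) := by
  rw [F'_one, F'_one]
  have hp := Real.pi_pos
  have hπ := mul_le_mul_of_nonneg_left hab hp.le
  have hπb : π * b ≤ π * (1/2) := mul_le_mul_of_nonneg_left h1 hp.le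
  have hπa : 0 ≤ π * a := by positivity
  have hcos : Real.cos (π * b) ≤ Real.cos (π * a) := by
    apply Real.cos_le_cos_of_nonneg_of_le_pi <;> linarith
  have hsin : Real.sin (π * a) ≤ Real.sin (π * b) := by
    apply Real.sin_le_sin_of_le_of_le_pi_div_two <;> linarith
  have hs0 : 0 ≤ Real.sin (π * a) := by
    apply Real.sin_nonneg_of_nonneg_of_le_pi <;> linarith
  have h2 : (3 + 2*a) * Real.sin (π*a) ≤ (3 + 2*b) * Real.sin (π*b) := by
    apply mul_le_mul <;> linarith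
  have h3 := mul_le_mul_of_nonneg_left h2 (by positivity : 0 ≤ π/4)
  linarith

/-- `F` is concave on `[1, 3/2]`. -/
theorem F_concave : ConcaveOn ℝ (Set.Icc 1 (3/2)) F := by
  apply AntitoneOn.concaveOn_of_deriv (convex_Icc _ _)
  · exact fun y _ => (hasDerivAt_F y).continuousAt.continuousWithinAt
  · exact fun y _ => (hasDerivAt_F y).differentiableAt.differentiableWithinAt
  · intro x hx y hy hxy
    rw [interior_Icc] at hx hy
    rw [(hasDerivAt_F x).deriv, (hasDerivAt_F y).deriv]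
    have := F'_one_anti (a := x - 1) (b := y - 1) (by linarith [hx.1]) (by linarith)
      (by linarith [hy.2])
    simpa using this

theorem F_ge_min {a b x : ℝ} (h0 : 0 ≤ a) (hax : a ≤ x) (hxb : x ≤ b) (h1 : b ≤ 1/2) {e : ℝ}
    (ha : e ≤ F (1+a)) (hb : e ≤ F (1+b)) : e ≤ F (1+x) := by
  have hab : a ≤ b := hax.trans hxb
  have h := F_concave.min_le_of_mem_Icc (x := 1+a) (y := 1+b) (z := 1+x)
    ⟨by linarith, by linarith⟩ ⟨by linarith, by linarith⟩ ⟨by linarith, by linarith⟩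
  exact (le_min ha hb).trans h

/-- `F ≤ 2.1415` on `[1, 1.3143]`. -/
theorem F_one_le {a : ℝ} (h0 : 0 ≤ a) (h1 : a ≤ 0.3143) : F (1 + a) ≤ 2.1415 := by
  have h := F_one_upper h0 (by linarith)
  have h2 : 3/2 * a - (4.9348 * a^2 - 4.0588 * a^4) * (3/4 + a/2) ≤ 0.1415 := by
    have e1 : 3/2 * a - (4.9348 * a^2 - 4.0588 * a^4) * (3/4 + a/2)
      = 3/2 * a - 3.7011 * a^2 - 2.4674 * a^3 + a^3 * (3.0441 * a + 2.0294 * a^2) := by ring
    rw [e1]
    have e2 : 3.0441 * a + 2.0294 * a^2 ≤ 3.6821 * a := by nlinarith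
    have e3 : a^3 * (3.0441 * a + 2.0294 * a^2) ≤ a^3 * (3.6821 * a) :=
      mul_le_mul_of_nonneg_left e2 (by positivity)
    have e4 : 3/2 * a - 3.7011 * a^2 - 2.4674 * a^3 + a^3 * (3.6821 * a) ≤ 0.1415 := by
      nlinarith [mul_nonneg h0 (sq_nonneg (a - 0.182)), sq_nonneg (a - 0.182),
        mul_nonneg (mul_nonneg h0 (sub_nonneg.2 h1)) (sq_nonneg (a - 0.182)),
        mul_nonneg (sub_nonneg.2 h1) (sq_nonneg (a - 0.182))]
    linarith
  linarith

end H488R2.CH
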