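import Pool.Agent.H488R2.CH.Trivial3

/-!
# Attracting cycles of a given period are bounded, hence finite in number
-/

namespace H488R2.CH

open Real

theorem err_step (m : ℕ) (x : ℝ) :
    |F x - T m| ≤ 3/2 * |x - m| + 5/2 * (m + 1) * |x - m|^2 := by
  obtain ⟨δ, hδ⟩ : ∃ δ, δ = x - m := ⟨_, rfl⟩
  have e : x = m + δ := by rw [hδ]; ring
  rw [← hδ]
  have hc1 := Real.cos_le_one (π * δ)
  have hc0 := Real.neg_one_le_cos (π * δ)
  have hc2 := Real.one_sub_sq_div_two_le_cos (x := π * δ)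
  obtain ⟨hp1, hp2⟩ := pi_sq_bounds
  have hc3 : 1 - Real.cos (π * δ) ≤ 5 * |δ|^2 := by
    have e1 : (π * δ)^2 = π^2 * |δ|^2 := by rw [sq_abs]; ring
    rw [e1] at hc2
    have := mul_le_mul_of_nonneg_right hp2.le (sq_nonneg |δ|)
    nlinarith [sq_nonneg |δ|]
  have h1 : |(2*(m:ℝ)+1)/4 * (1 - Real.cos (π * δ))| ≤ 5/2 * (m+1) * |δ|^2 := by
    rw [abs_of_nonneg (mul_nonneg (by positivity) (by linarith))]
    have h2 : (2*(m:ℝ)+1)/4 * (1 - Real.cos (π * δ)) ≤ (2*(m:ℝ)+1)/4 * (5 * |δ|^2) :=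
      mul_le_mul_of_nonneg_left hc3 (by positivity)
    nlinarith [sq_nonneg |δ|]
  rcases Nat.mod_two_eq_zero_or_one m with h | h
  · rw [e, F_even h]
    have h2 : |δ * (1 - Real.cos (π * δ)/2)| ≤ 3/2 * |δ| := by
      rw [abs_mul, mul_comm]
      apply mul_le_mul_of_nonneg_right _ (abs_nonneg _)
      rw [abs_le]; constructor <;> linarith
    calc |(T m : ℝ) + ((2*(m:ℝ)+1)/4 * (1 - Real.cos (π * δ)) + δ * (1 - Real.cos (π * δ)/2)) - T m|
        = |(2*(m:ℝ)+1)/4 * (1 - Real.cos (π * δ)) + δ * (1 - Real.cos (π * δ)/2)| := by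
          congr 1; ring
      _ ≤ _ := (abs_add_le _ _).trans (by linarith)
  · rw [e, F_odd h]
    have h2 : |δ * (1 + Real.cos (π * δ)/2)| ≤ 3/2 * |δ| := by
      rw [abs_mul, mul_comm]
      apply mul_le_mul_of_nonneg_right _ (abs_nonneg _)
      rw [abs_le]; constructor <;> linarith
    calc |(T m : ℝ) + (δ * (1 + Real.cos (π * δ)/2) - (2*(m:ℝ)+1)/4 * (1 - Real.cos (π * δ))) - T m|
        = |δ * (1 + Real.cos (π * δ)/2) - (2*(m:ℝ)+1)/4 * (1 - Real.cos (π * δ))| := by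
          congr 1; ring
      _ ≤ _ := (abs_sub _ _).trans (by linarith)

theorem T_growth (m : ℕ) : (T m : ℝ) + 1 ≤ 3/2 * (m + 1) := by
  have hm : (0:ℝ) ≤ m := by positivity
  rcases Nat.mod_two_eq_zero_or_one m with h | h
  · rw [T_even h]; linarith
  · rw [T_odd h]; linarith

theorem T_iter_growth (n k : ℕ) : ((T^[k] n : ℕ) : ℝ) + 1 ≤ (3/2)^k * (n + 1) := by
  induction k with
  | zero => simp
  | succ k ih =>
    rw [Function.iterate_succ_apply', pow_succ]
    have := T_growth (T^[k] n)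
    linarith

/-- shadowing constants -/
noncomputable def D : ℕ → ℝ
  | 0 => 1
  | (k+1) => 3/2 * D k + 5/2 * (3/2)^k * (D k)^2

theorem D_pos (k : ℕ) : 0 < D k := by
  induction k with
  | zero => simp [D]
  | succ k ih => unfold D; positivity

theorem shadow_err {n : ℕ} {x : ℝ} (h : |x - n| ≤ 1 / ((n:ℝ) + 1)) (k : ℕ) :
    |F^[k] x - T^[k] n| ≤ D k / ((n:ℝ)+1) := by
  have hN : (0:ℝ) < n + 1 := by positivity
  induction k with
  | zero => simpa [D] using h
  | succ k ih =>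
    rw [Function.iterate_succ_apply', Function.iterate_succ_apply']
    have h1 := err_step (T^[k] n) (F^[k] x)
    have h2 := T_iter_growth n k
    have hD := D_pos k
    have h3 : |F^[k] x - T^[k] n|^2 ≤ (D k / ((n:ℝ)+1))^2 :=
      pow_le_pow_left₀ (abs_nonneg _) ih 2
    have h4 : 5/2 * (((T^[k] n : ℕ) : ℝ) + 1) * |F^[k] x - T^[k] n|^2 ≤
        5/2 * ((3/2)^k * (n+1)) * (D k / ((n:ℝ)+1))^2 := by
      apply mul_le_mul _ h3 (by positivity) (by positivity)
      linarith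
    have h5 : 5/2 * ((3/2)^k * ((n:ℝ)+1)) * (D k / ((n:ℝ)+1))^2 =
        5/2 * (3/2)^k * (D k)^2 / ((n:ℝ)+1) := by
      field_simp
    have h6 : D (k+1) / ((n:ℝ)+1) = 3/2 * (D k / ((n:ℝ)+1)) + 5/2 * (3/2)^k * (D k)^2 / ((n:ℝ)+1) := by
      have : D (k+1) = 3/2 * D k + 5/2 * (3/2)^k * (D k)^2 := rfl
      rw [this]; ring
    rw [h6, ← h5]
    linarith

theorem F_growth {x : ℝ} (h : 0 < x) : F x + 1 ≤ 3/2 * (x + 1) := by
  unfold F
  have hc0 := Real.neg_one_le_cos (π * x)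
  nlinarith

theorem iter_growth {x : ℝ} (h : 0 < x) (k : ℕ) : F^[k] x + 1 ≤ (3/2)^k * (x + 1) := by
  induction k with
  | zero => simp
  | succ k ih =>
    rw [Function.iterate_succ_apply', pow_succ]
    have := F_growth (iter_pos h k)
    linarith

/-- bound for one orbit point -/
noncomputable def B (p : ℕ) : ℝ := D p + 1 + 3^p

/-- height bound for attracting cycles of period `p` -/
noncomputable def H (p : ℕ) : ℝ := (3/2)^p * (B p + 1)

theorem some_small {x : ℝ} (h0 : 0 < x) {p : ℕ} (hp : 0 < p) (hx : F^[p] x = x)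
    (hm : |mul' p x| < 1) : ∃ k < p, F^[k] x ≤ B p := by
  have hD := D_pos p
  rcases dichotomy h0 hp hx with ⟨n, hn, hT, hI⟩ | hE
  · refine ⟨0, hp, ?_⟩
    have h1 := (hI 0).2
    simp only [Function.iterate_zero, id] at h1
    have h2 : n < 3^p := cycle_bound hn hp hT
    have h3 : (n:ℝ) + 1 ≤ 3^p := by exact_mod_cast h2
    have h4 := wid_lt_half hn
    have h5 := h1.2
    simp only [Function.iterate_zero, id]
    unfold B
    linarith
  · obtain ⟨k, hk, hkF⟩ := exists_small hm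
    refine ⟨k, hk, ?_⟩
    obtain ⟨n, h1, h2, h3, h4, h5⟩ := hE k hkF
    have hn : (2:ℝ) ≤ n := by exact_mod_cast h2
    by_contra hbig
    push Not at hbig
    have hdist : |F^[k] x - n| ≤ 1 / ((n:ℝ)+1) := by
      rw [abs_sub_comm, abs_of_pos (by linarith), le_div_iff₀ (by linarith)]
      nlinarith
    have h6 := shadow_err hdist p
    rw [iter_periodic hx k] at h6
    have hN : D p + 1 < (n:ℝ) + 1 := by
      have : (0:ℝ) < 3^p := by positivity
      unfold B at hbig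
      linarith
    have h7 : |(n:ℝ) - T^[p] n| < 1 := by
      calc |(n:ℝ) - T^[p] n| ≤ |(n:ℝ) - F^[k] x| + |F^[k] x - T^[p] n| := abs_sub_le _ _ _
        _ ≤ 1 / ((n:ℝ)+1) + D p / ((n:ℝ)+1) := by
          rw [abs_sub_comm (n:ℝ)]; linarith
        _ = (D p + 1) / ((n:ℝ)+1) := by ring
        _ < 1 := by rw [div_lt_one (by linarith)]; exact hN
    have h8 : n = T^[p] n := by
      have h9 : |((n:ℤ) - (T^[p] n : ℕ) : ℤ)| < 1 := by
        have : ((|((n:ℤ) - (T^[p] n : ℕ) : ℤ)| : ℤ) : ℝ) < 1 := by push_cast; exact h7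
        exact_mod_cast this
      rw [Int.abs_lt_one_iff] at h9
      omega
    have h10 := cycle_bound (by omega : 1 ≤ n) hp h8.symm
    have h11 : (n:ℝ) + 1 ≤ 3^p := by exact_mod_cast h10
    unfold B at hbig
    linarith

theorem height_bound {x : ℝ} (h0 : 0 < x) {p : ℕ} (hp : 0 < p) (hx : F^[p] x = x)
    (hm : |mul' p x| < 1) : x ≤ H p := by
  obtain ⟨k, hk, hkB⟩ := some_small h0 hp hx hm
  have h1 : F^[p-k] (F^[k] x) = x := by
    rw [← Function.iterate_add_apply]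
    have : p - k + k = p := by omega
    rw [this, hx]
  have h2 := iter_growth (iter_pos h0 k) (p-k)
  rw [h1] at h2
  have h3 : (3/2:ℝ)^(p-k) ≤ (3/2)^p := pow_le_pow_right₀ (by norm_num) (by omega)
  have h4 : (3/2:ℝ)^(p-k) * (F^[k] x + 1) ≤ (3/2)^p * (B p + 1) := by
    apply mul_le_mul h3 (by linarith) _ (by positivity)
    have := iter_pos h0 k; linarith
  unfold H
  linarith

theorem F_analytic (x : ℝ) : AnalyticAt ℝ F x := by
  unfold F
  fun_prop

theorem iter_analytic (p : ℕ) (x : ℝ) : AnalyticAt ℝ (F^[p]) x := by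
  induction p with
  | zero => exact analyticAt_id
  | succ p ih =>
    rw [Function.iterate_succ']
    exact (F_analytic _).comp ih

theorem F_pow_two (k : ℕ) : F ((2:ℝ)^(k+1)) = 2^k := by
  have h := F_even (m := 2^(k+1)) (by rw [pow_succ]; omega) 0
  have hT : T (2^(k+1)) = 2^k := by
    unfold T; rw [if_pos (by rw [pow_succ]; omega), pow_succ]; omega
  rw [hT] at h
  push_cast at h
  simpa using h

theorem F_iter_pow_two (p : ℕ) : F^[p] ((2:ℝ)^p) = 1 := by
  induction p with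
  | zero => simp
  | succ p ih => rw [Function.iterate_succ_apply, F_pow_two, ih]

theorem finite_periodic {p : ℕ} (hp : 0 < p) (R : ℝ) :
    {x : ℝ | 0 ≤ x ∧ x ≤ R ∧ F^[p] x = x}.Finite := by
  by_contra hinf
  have hinf' : {x : ℝ | 0 ≤ x ∧ x ≤ R ∧ F^[p] x = x}.Infinite := hinf
  obtain ⟨y, hy, hacc⟩ := hinf'.exists_accPt_of_subset_isCompact (isCompact_Icc (a := (0:ℝ)) (b := R))
    (fun x hx => ⟨hx.1, hx.2.1⟩)
  have hana : AnalyticOnNhd ℝ (fun x => F^[p] x - x) Set.univ :=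
    fun x _ => (iter_analytic p x).sub analyticAt_id
  have hfreq : ∃ᶠ z in nhdsWithin y {y}ᶜ, F^[p] z - z = 0 := by
    rw [accPt_iff_frequently_nhdsNE] at hacc
    exact hacc.mono (fun z hz => by rw [hz.2.2]; ring)
  have hzero := hana.eqOn_zero_of_preconnected_of_frequently_eq_zero isPreconnected_univ
    (Set.mem_univ y) hfreq
  have h1 := hzero (Set.mem_univ ((2:ℝ)^p))
  simp only [F_iter_pow_two, Pi.zero_apply] at h1
  have h2 : (2:ℝ)^1 ≤ 2^p := pow_le_pow_right₀ (by norm_num) hp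
  linarith

end H488R2.CH
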