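import Pool.Agent.H488R2.CH.Period

/-!
# Explicit height bound `6^(2^p)`
-/

namespace H488R2.CH

open Real

theorem D_ge_one (k : ℕ) : 1 ≤ D k := by
  induction k with
  | zero => simp [D]
  | succ k ih =>
    have : D (k+1) = 3/2 * D k + 5/2 * (3/2)^k * (D k)^2 := rfl
    rw [this]
    have : 0 ≤ 5/2 * (3/2:ℝ)^k * (D k)^2 := by positivity
    linarith

theorem D_le (k : ℕ) : 6 * (3/2)^k * D k ≤ 6^(2^k) := by
  induction k with
  | zero => simp [D]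
  | succ k ih =>
    have h1 := D_ge_one k
    have h2 : (1:ℝ) ≤ (3/2)^k := one_le_pow₀ (by norm_num)
    have e : D (k+1) = 3/2 * D k + 5/2 * (3/2)^k * (D k)^2 := rfl
    have h3 : D (k+1) ≤ 4 * (3/2)^k * (D k)^2 := by
      rw [e]
      have h4 : D k ≤ (3/2)^k * (D k)^2 := by nlinarith
      nlinarith
    have h5 : 6 * (3/2:ℝ)^(k+1) * D (k+1) ≤ (6 * (3/2)^k * D k)^2 := by
      have h6 : 6 * (3/2:ℝ)^(k+1) * D (k+1) ≤ 6 * (3/2:ℝ)^(k+1) * (4 * (3/2)^k * (D k)^2) :=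
        mul_le_mul_of_nonneg_left h3 (by positivity)
      have h7 : 6 * (3/2:ℝ)^(k+1) * (4 * (3/2)^k * (D k)^2) = (6 * (3/2)^k * D k)^2 := by
        rw [pow_succ]; ring
      linarith
    have h8 : (6 * (3/2:ℝ)^k * D k)^2 ≤ (6^(2^k))^2 := by
      apply pow_le_pow_left₀ _ ih
      have := D_pos k; positivity
    calc 6 * (3/2:ℝ)^(k+1) * D (k+1) ≤ (6^(2^k))^2 := h5.trans h8
      _ = 6^(2^(k+1)) := by rw [← pow_mul, ← pow_succ]

theorem H_le {p : ℕ} (hp : 0 < p) : H p ≤ 6^(2^p) := by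
  have h1 := D_le p
  have h2 : (3:ℝ) * (9/2)^p ≤ 5/6 * 6^(2^p) := by
    have h3 : 2 * p ≤ 2^p := by
      obtain ⟨q, rfl⟩ : ∃ q, p = q + 1 := ⟨p-1, by omega⟩
      have := Nat.lt_two_pow_self (n := q)
      rw [pow_succ]; omega
    have h4 : (6:ℝ)^(2*p) ≤ 6^(2^p) := pow_le_pow_right₀ (by norm_num) h3
    have h5 : (6:ℝ)^(2*p) = 8^p * (9/2)^p := by
      rw [pow_mul, ← mul_pow]; norm_num
    have h6 : (8:ℝ) ≤ 8^p := by
      calc (8:ℝ) = 8^1 := by norm_num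
        _ ≤ 8^p := pow_le_pow_right₀ (by norm_num) hp
    have h7 : (8:ℝ) * (9/2)^p ≤ 8^p * (9/2)^p := mul_le_mul_of_nonneg_right h6 (by positivity)
    have h8 : (0:ℝ) ≤ (9/2)^p := by positivity
    linarith
  have h9 : (3/2:ℝ)^p * 3^p = (9/2)^p := by rw [← mul_pow]; norm_num
  have h10 : (3/2:ℝ)^p ≤ (9/2)^p := pow_le_pow_left₀ (by norm_num) (by norm_num) p
  unfold H B
  have e : (3/2:ℝ)^p * (D p + 1 + 3^p + 1) = 1/6 * (6 * (3/2)^p * D p) + 2 * (3/2)^p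
      + (3/2:ℝ)^p * 3^p := by ring
  rw [e, h9]
  linarith

end H488R2.CH
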