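import Pool.Agent.H488R2.CH.Window

/-!
# Attracting cycles: shadowing dichotomy
-/

namespace H488R2.CH

open Real

theorem F_pos {x : ℝ} (h : 0 < x) : 0 < F x := by
  unfold F
  have hc1 := Real.cos_le_one (π * x)
  nlinarith

theorem iter_pos {x : ℝ} (h : 0 < x) (k : ℕ) : 0 < F^[k] x := by
  induction k with
  | zero => exact h
  | succ k ih => rw [Function.iterate_succ_apply']; exact F_pos ih

theorem hasDerivAt_iter (x : ℝ) (n : ℕ) :
    HasDerivAt (F^[n]) (∏ i ∈ Finset.range n, F' (F^[i] x)) x := by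
  induction n with
  | zero => simpa using hasDerivAt_id x
  | succ n ih =>
    rw [Function.iterate_succ', Finset.prod_range_succ, mul_comm]
    exact (hasDerivAt_F (F^[n] x)).comp x ih

theorem deriv_iter (x : ℝ) (n : ℕ) :
    deriv (F^[n]) x = ∏ i ∈ Finset.range n, F' (F^[i] x) := (hasDerivAt_iter x n).deriv

theorem exists_small {x : ℝ} {n : ℕ} (h : |∏ i ∈ Finset.range n, F' (F^[i] x)| < 1) :
    ∃ i < n, |F' (F^[i] x)| < 1 := by
  by_contra hne
  push Not at hne
  rw [Finset.abs_prod] at h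
  have : (1:ℝ) ≤ ∏ i ∈ Finset.range n, |F' (F^[i] x)| := by
    calc (1:ℝ) = ∏ i ∈ Finset.range n, (1:ℝ) := by simp
      _ ≤ _ := Finset.prod_le_prod (fun _ _ => zero_le_one)
        (fun i hi => hne i (Finset.mem_range.1 hi))
  linarith

theorem iter_periodic {x : ℝ} {p : ℕ} (hx : F^[p] x = x) (k : ℕ) : F^[p] (F^[k] x) = F^[k] x := by
  rw [← Function.iterate_add_apply, add_comm, Function.iterate_add_apply, hx]

/-- A periodic point in some trapping interval shadows an integer cycle. -/
theorem shadow_of_mem {x : ℝ} {p : ℕ} (hx : F^[p] x = x) {n : ℕ} (hn : 1 ≤ n) (h : x ∈ I n) :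
    T^[p] n = n ∧ ∀ k, 1 ≤ T^[k] n ∧ F^[k] x ∈ I (T^[k] n) := by
  refine ⟨?_, fun k => trap_iter hn h k⟩
  have h1 := trap_iter hn h p
  rw [hx] at h1
  exact I_disjoint h1.1 hn h1.2 h

/-- Local dichotomy at a point of contraction of a periodic orbit. -/
theorem local_dichotomy {x : ℝ} (h0 : 0 < x) {p : ℕ} (hp : 0 < p) (hx : F^[p] x = x)
    (hF : |F' x| < 1) :
    (∃ n, 1 ≤ n ∧ x ∈ I n) ∨
    (∃ n : ℕ, n % 2 = 0 ∧ 2 ≤ n ∧ x < n ∧ (2*(n:ℝ)+1) * (n - x) < 0.75 ∧ F x < T n) := by
  -- nearest integer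
  obtain ⟨n, hn⟩ : ∃ n : ℕ, n = ⌊x + 1/2⌋₊ := ⟨_, rfl⟩
  have h1 : (n:ℝ) ≤ x + 1/2 := by rw [hn]; exact Nat.floor_le (by linarith)
  have h2 : x + 1/2 < n + 1 := by rw [hn]; exact Nat.lt_floor_add_one _
  rcases Nat.eq_zero_or_pos n with hz | hpos
  · exfalso
    rw [hz] at h1 h2
    norm_num at h2
    have h3 := window_zero h0 (by linarith) hF
    exact not_periodic_small h0 h3 hp hx
  have e : x = n + (x - n) := by ring
  rcases Nat.mod_two_eq_zero_or_one n with h | h
  · -- even
    by_cases hge : (n:ℝ) ≤ x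
    · left
      refine ⟨n, hpos, hge, ?_⟩
      have hF' := hF
      rw [e] at hF'
      have := window_even_above h (by linarith) (by linarith) hF'
      have hw : wid n = 0.73 / (2*n+1) := by unfold wid; rw [if_pos h]
      rw [hw]; linarith
    · push Not at hge
      have hn2 : 2 ≤ n := by omega
      have hF' := hF
      have e2 : x = n - (n - x) := by ring
      rw [e2] at hF'
      have hu := window_even_below h hpos (by linarith) (by linarith) hF'
      by_cases hFx : F x < T n
      · right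
        exact ⟨n, h, hn2, hge, hu, hFx⟩
      · left
        push Not at hFx
        have h3 := trap_from_below h hpos (by linarith) hu
        rw [← e2] at h3
        have h4 : F x ∈ I (T n) := ⟨hFx, h3.trans (by linarith [nar_le_wid (T n)])⟩
        have h5 := trap_iter (T_pos hpos) h4 (p-1)
        refine ⟨_, h5.1, ?_⟩
        have h6 : F^[p-1] (F x) = x := by
          rw [← Function.iterate_succ_apply]
          have : (p-1).succ = p := by omega
          rw [this, hx]
        rw [← h6]; rw [h6]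
        have h7 := h5.2
        rw [h6] at h7
        exact h7
  · -- odd
    left
    have hF' := hF
    rw [e] at hF'
    have := window_odd h (by linarith) (by linarith) hF'
    refine ⟨n, hpos, by linarith, ?_⟩
    have hw : wid n = 1.1 / (2*n+3/2) := by unfold wid; rw [if_neg (by omega)]
    rw [hw]; linarith

/-- Global dichotomy for an attracting periodic orbit. -/
theorem dichotomy {x : ℝ} (h0 : 0 < x) {p : ℕ} (hp : 0 < p) (hx : F^[p] x = x) :
    (∃ n, 1 ≤ n ∧ T^[p] n = n ∧ ∀ k, 1 ≤ T^[k] n ∧ F^[k] x ∈ I (T^[k] n)) ∨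
    (∀ k, |F' (F^[k] x)| < 1 → ∃ n : ℕ, n % 2 = 0 ∧ 2 ≤ n ∧ F^[k] x < n ∧
      (2*(n:ℝ)+1) * (n - F^[k] x) < 0.75 ∧ F^[k+1] x < T n) := by
  by_cases hA : ∃ k, ∃ n, 1 ≤ n ∧ F^[k] x ∈ I n
  · left
    obtain ⟨k, n, hn, hk⟩ := hA
    -- move forward to a multiple of p
    have h1 := trap_iter hn hk (k * p - k)
    have hkp : k ≤ k * p := Nat.le_mul_of_pos_right k hp
    have h2 : F^[k*p - k] (F^[k] x) = x := by
      rw [← Function.iterate_add_apply]
      have : k * p - k + k = k * p := by omega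
      rw [this]
      have : ∀ j, F^[j*p] x = x := by
        intro j
        induction j with
        | zero => simp
        | succ j ih => rw [Nat.succ_mul, Function.iterate_add_apply, hx, ih]
      exact this k
    rw [h2] at h1
    obtain ⟨h3, h4⟩ := shadow_of_mem hx h1.1 h1.2
    exact ⟨_, h1.1, h3, h4⟩
  · right
    push Not at hA
    intro k hk
    rcases local_dichotomy (iter_pos h0 k) hp (iter_periodic hx k) hk with h | h
    · obtain ⟨n, hn, hmem⟩ := h
      exact absurd hmem (hA k n hn)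
    · obtain ⟨n, a, b, c, d, e⟩ := h
      refine ⟨n, a, b, c, d, ?_⟩
      rw [Function.iterate_succ_apply']
      exact e

theorem two_T_even {m : ℕ} (h : m % 2 = 0) : 2 * T m = m := by
  unfold T; rw [if_pos h]; omega

theorem two_T_odd {m : ℕ} (h : m % 2 = 1) : 2 * T m = 3 * m + 1 := by
  unfold T; rw [if_neg (by omega)]; omega

/-- positivity of the integer affine expansion -/
theorem affine (n : ℕ) (k : ℕ) : ∃ a r : ℕ, 2^k * T^[k] n = 3^a * n + r ∧ r + 2^k ≤ 3^k := by
  induction k with
  | zero => exact ⟨0, 0, by simp, by simp⟩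
  | succ k ih =>
    obtain ⟨a, r, h1, h2⟩ := ih
    rw [Function.iterate_succ_apply']
    rcases Nat.mod_two_eq_zero_or_one (T^[k] n) with h | h
    · refine ⟨a, r, ?_, ?_⟩
      · have := two_T_even h
        calc 2^(k+1) * T (T^[k] n) = 2^k * (2 * T (T^[k] n)) := by ring
          _ = _ := by rw [this, h1]
      · have h3 : 2^(k+1) = 2^k + 2^k := by ring
        have h4 : 3^(k+1) = 3^k + 2 * 3^k := by ring
        have h5 : 2^k ≤ 3^k := Nat.pow_le_pow_left (by norm_num) k
        omega
    · refine ⟨a+1, 3*r + 2^k, ?_, ?_⟩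
      · have := two_T_odd h
        calc 2^(k+1) * T (T^[k] n) = 2^k * (2 * T (T^[k] n)) := by ring
          _ = 3 * (2^k * T^[k] n) + 2^k := by rw [this]; ring
          _ = _ := by rw [h1]; ring
      · have h3 : 2^(k+1) = 2^k + 2^k := by ring
        have h4 : 3^(k+1) = 3 * 3^k := by ring
        omega

/-- elements of integer cycles of length `p` are less than `3^p`. -/
theorem cycle_bound {n p : ℕ} (hn : 1 ≤ n) (hp : 0 < p) (h : T^[p] n = n) : n < 3^p := by
  obtain ⟨a, r, h1, h2⟩ := affine n p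
  rw [h] at h1
  have h3 : 3^a < 2^p := by
    rcases lt_trichotomy (3^a) (2^p) with h4 | h4 | h4
    · exact h4
    · exfalso
      have h5 : 2^p % 2 = 0 := by
        obtain ⟨q, rfl⟩ : ∃ q, p = q + 1 := ⟨p-1, by omega⟩
        rw [pow_succ]; omega
      have h6 : 3^a % 2 = 1 := by
        rw [Nat.pow_mod]; norm_num
      omega
    · have : 2^p * n < 3^a * n := Nat.mul_lt_mul_of_pos_right h4 hn
      omega
  have h4 : (3^a + 1) * n ≤ 2^p * n := Nat.mul_le_mul_right n h3
  have h5 : n ≤ r := by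
    have : (3^a+1) * n = 3^a * n + n := by ring
    omega
  have h6 : 0 < 2^p := by positivity
  omega

end H488R2.CH
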