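import Pool.Agent.H488R2.CH.Numeric

/-!
# Attracting cycles shadowing the trivial integer cycle `{1,2}` are `A₁` and `A₂`
-/

namespace H488R2.CH

open Real

/-- second iterate -/
noncomputable def G (x : ℝ) : ℝ := F (F x)

/-- its derivative -/
noncomputable def P (x : ℝ) : ℝ := F' (F x) * F' x

theorem hasDerivAt_G (x : ℝ) : HasDerivAt G (P x) x := (hasDerivAt_F (F x)).comp x (hasDerivAt_F x)

theorem G_continuous : Continuous G := by
  have : Differentiable ℝ G := fun x => (hasDerivAt_G x).differentiableAt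
  exact this.continuous

theorem F_one_ge_two {a : ℝ} (h0 : 0 ≤ a) (h1 : a ≤ 0.3143) : 2 ≤ F (1 + a) := by
  have h := F_one_lower h0 (by linarith)
  have e : 3/2 * a - (4.934805 * a^2 - 4.0586 * a^4 + 1.3353 * a^6) * (3/4 + a/2)
    = a * (3/2 - (4.934805 * a - 4.0586 * a^3 + 1.3353 * a^5) * (3/4 + a/2)) := by ring
  have h2 : 0 ≤ a * (3/2 - (4.934805 * a - 4.0586 * a^3 + 1.3353 * a^5) * (3/4 + a/2)) := by
    apply mul_nonneg h0
    have h3 : 4.934805 * a - 4.0586 * a^3 + 1.3353 * a^5 ≤ 1.552 := by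
      have : 0 ≤ a^3 * (4.0586 - 1.3353 * a^2) := by
        apply mul_nonneg (by positivity); nlinarith
      nlinarith
    have h4 : (4.934805 * a - 4.0586 * a^3 + 1.3353 * a^5) * (3/4 + a/2) ≤ 1.552 * (3/4 + a/2) :=
      mul_le_mul_of_nonneg_right h3 (by positivity)
    nlinarith
  linarith

theorem G_le {a : ℝ} (h0 : 0 ≤ a) (h1 : a ≤ 0.3143) : G (1 + a) ≤ 1.2 := by
  have h2 := F_one_le h0 h1
  have h3 := F_one_ge_two h0 h1
  unfold G
  have e : F (1 + a) = 2 + (F (1+a) - 2) := by ring
  rw [e]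
  have h4 := F_two_mono (a := F (1+a) - 2) (b := 0.1415) (by linarith) (by linarith) (by norm_num)
  have h5 := F_two_upper (a := 0.1415) (by norm_num) (by norm_num)
  norm_num at h5 h4 ⊢
  linarith

theorem G_ge_one {a : ℝ} (h0 : 0 ≤ a) (h1 : a ≤ 0.3143) : 1 ≤ G (1 + a) := by
  have h2 := F_one_le h0 h1
  have h3 := F_one_ge_two h0 h1
  unfold G
  have e : F (1 + a) = 2 + (F (1+a) - 2) := by ring
  rw [e]
  have h4 := F_two_mono (a := 0) (b := F (1+a) - 2) le_rfl (by linarith) (by linarith)
  have h5 := F_two_lower (a := 0) (by norm_num) (by norm_num)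
  norm_num at h5 h4 ⊢
  linarith

/-- one link of the chain -/
theorem G_chain {a b e x : ℝ} (h0 : 0 ≤ a) (h1 : b ≤ 0.3143) (hax : a ≤ x) (hxb : x ≤ b)
    (he0 : 0 ≤ e)
    (ha : e ≤ 3/2 * a - (4.934805 * a^2 - 4.0586 * a^4 + 1.3353 * a^6) * (3/4 + a/2))
    (hb : e ≤ 3/2 * b - (4.934805 * b^2 - 4.0586 * b^4 + 1.3353 * b^6) * (3/4 + b/2)) :
    1 + ((4.9348 * e^2 - 4.0588 * e^4) * (5/4 + e/2) + e/2) ≤ G (1 + x) := by
  have hx0 : 0 ≤ x := h0.trans hax
  have hab : a ≤ b := hax.trans hxb
  have h2 := F_one_le hx0 (hxb.trans h1)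
  have h3 : 2 + e ≤ F (1 + x) := by
    apply F_ge_min h0 hax hxb (by linarith)
    · have := F_one_lower h0 (by linarith : a ≤ 1/2); linarith
    · have := F_one_lower (h0.trans hab) (by linarith : b ≤ 1/2); linarith
  unfold G
  have e1 : F (1 + x) = 2 + (F (1+x) - 2) := by ring
  rw [e1]
  have h4 := F_two_mono (a := e) (b := F (1+x) - 2) he0 (by linarith) (by linarith)
  have h5 := F_two_lower (a := e) he0 (by linarith)
  linarith

theorem G_gt_mid {x : ℝ} (h0 : 0.05 ≤ x) (h1 : x ≤ 0.183) : 1 + x < G (1 + x) := by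
  rcases le_total x 0.059 with h | h
  · have := G_chain (a := 0.05) (b := 0.059) (e := 0.065) (by norm_num) (by norm_num) h0 h
      (by norm_num) (by norm_num) (by norm_num)
    norm_num at this ⊢; linarith
  rcases le_total x 0.072 with h' | h'
  · have := G_chain (a := 0.059) (b := 0.072) (e := 0.0749) (by norm_num) (by norm_num) h h'
      (by norm_num) (by norm_num) (by norm_num)
    norm_num at this ⊢; linarith
  rcases le_total x 0.092 with h2 | h2
  · have := G_chain (a := 0.072) (b := 0.092) (e := 0.0879) (by norm_num) (by norm_num) h' h2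
      (by norm_num) (by norm_num) (by norm_num)
    norm_num at this ⊢; linarith
  rcases le_total x 0.121 with h3 | h3
  · have := G_chain (a := 0.092) (b := 0.121) (e := 0.1049) (by norm_num) (by norm_num) h2 h3
      (by norm_num) (by norm_num) (by norm_num)
    norm_num at this ⊢; linarith
  rcases le_total x 0.156 with h4 | h4
  · have := G_chain (a := 0.121) (b := 0.156) (e := 0.1236) (by norm_num) (by norm_num) h3 h4
      (by norm_num) (by norm_num) (by norm_num)
    norm_num at this ⊢; linarith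
  · have := G_chain (a := 0.156) (b := 0.183) (e := 0.1362) (by norm_num) (by norm_num) h4 h1
      (by norm_num) (by norm_num) (by norm_num)
    norm_num at this ⊢; linarith

/-- the interval `J` is mapped into itself -/
theorem G_J {x : ℝ} (h0 : 0.183 ≤ x) (h1 : x ≤ 0.2) : 1.183 ≤ G (1 + x) ∧ G (1+x) ≤ 1.2 := by
  constructor
  · have := G_chain (a := 0.183) (b := 0.2) (e := 0.1376) (by norm_num) (by norm_num) h0 h1
      (by norm_num) (by norm_num) (by norm_num)
    norm_num at this ⊢; linarith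
  · exact G_le (by linarith) (by linarith)

end H488R2.CH
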