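import Pool.Agent.H488R2.CH.Trivial

/-!
# Attracting cycles shadowing the trivial integer cycle `{1,2}` are `A₁` and `A₂` (II)
-/

namespace H488R2.CH

open Real

theorem F'_one_lower {a : ℝ} (h0 : 0 ≤ a) (h1 : a ≤ 1/2) :
    1 + (1 - (4.934805 * a^2 - 4.0586 * a^4 + 1.3353 * a^6))/2
      - (3 + 2*a) * (2.467403 * a - 4.0586 * a^3 + 2.0031 * a^5) ≤ F' (1 + a) := by
  rw [F'_one]
  have hp := Real.pi_pos
  have hc := one_sub_cos_upper h0 h1
  have hs := sin_le_five (x := π * a) (by positivity) (by nlinarith [Real.pi_lt_d2])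
  obtain ⟨h2, h3⟩ := pi_sq'
  obtain ⟨h4, h5⟩ := pi_four'
  have h6 := pi_six'
  have e1 : π/4 * (π * a - (π * a)^3/6 + (π * a)^5/120) =
    π^2/4 * a - π^4/24 * a^3 + π^6/480 * a^5 := by ring
  have e2 : π/4 * Real.sin (π * a) ≤ π/4 * (π * a - (π * a)^3/6 + (π * a)^5/120) :=
    mul_le_mul_of_nonneg_left hs (by positivity)
  rw [e1] at e2
  have a3 : 0 ≤ a^3 := by positivity
  have a5 : 0 ≤ a^5 := by positivity
  have b1 := mul_le_mul_of_nonneg_right h3.le h0
  have b2 := mul_le_mul_of_nonneg_right h4.le a3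
  have b3 := mul_le_mul_of_nonneg_right h6.le a5
  have e3 : π/4 * Real.sin (π * a) ≤ 2.467403 * a - 4.0586 * a^3 + 2.0031 * a^5 := by linarith
  have e4 := mul_le_mul_of_nonneg_left e3 (by positivity : 0 ≤ 3 + 2*a)
  have e5 : π/4 * ((3 + 2*a) * Real.sin (π*a)) = (3 + 2*a) * (π/4 * Real.sin (π * a)) := by ring
  rw [e5]
  linarith

theorem F'_one_upper {a : ℝ} (h0 : 0 ≤ a) (h1 : a ≤ 1/2) :
    F' (1 + a) ≤ 1 + (1 - (4.9348 * a^2 - 4.0588 * a^4))/2
      - (3 + 2*a) * (2.4674 * a - 4.0588 * a^3) := by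
  rw [F'_one]
  have hp := Real.pi_pos
  have hc := one_sub_cos_lower h0 h1
  have hs := Real.sin_ge_sub_cube (x := π * a) (by positivity)
  obtain ⟨h2, h3⟩ := pi_sq'
  obtain ⟨h4, h5⟩ := pi_four'
  have e1 : π/4 * (π * a - (π * a)^3/6) = π^2/4 * a - π^4/24 * a^3 := by ring
  have e2 : π/4 * (π * a - (π * a)^3/6) ≤ π/4 * Real.sin (π * a) :=
    mul_le_mul_of_nonneg_left hs (by positivity)
  rw [e1] at e2
  have a3 : 0 ≤ a^3 := by positivity
  have b1 := mul_le_mul_of_nonneg_right h2.le h0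
  have b2 := mul_le_mul_of_nonneg_right h5.le a3
  have e3 : 2.4674 * a - 4.0588 * a^3 ≤ π/4 * Real.sin (π * a) := by linarith
  have e4 := mul_le_mul_of_nonneg_left e3 (by positivity : 0 ≤ 3 + 2*a)
  have e5 : π/4 * ((3 + 2*a) * Real.sin (π*a)) = (3 + 2*a) * (π/4 * Real.sin (π * a)) := by ring
  rw [e5]
  linarith

theorem F'_two_bounds {a b : ℝ} (h0 : 0 ≤ a) (hab : a ≤ b) (h1 : b ≤ 1/2) :
    0 ≤ F' (2 + a) ∧ F' (2 + a) ≤ 1/2 + 2.4674026 * b^2 + 2.4674026 * ((5 + 2*b) * b) := by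
  rw [F'_two]
  have hp := Real.pi_pos
  obtain ⟨h2, h3⟩ := pi_sq'
  have hc1 := Real.cos_le_one (π * a)
  have hc2 := Real.one_sub_sq_div_two_le_cos (x := π * a)
  have hs := Real.sin_le (x := π * a) (by positivity)
  have hs0 : 0 ≤ Real.sin (π * a) := by
    apply Real.sin_nonneg_of_nonneg_of_le_pi
    · positivity
    · nlinarith
  constructor
  · have : 0 ≤ π/4 * ((5 + 2*a) * Real.sin (π*a)) := by positivity
    linarith
  · have e1 : (π * a)^2 = π^2 * a^2 := by ring
    rw [e1] at hc2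
    have hab2 : a^2 ≤ b^2 := pow_le_pow_left₀ h0 hab 2
    have e2 : π^2 * a^2 ≤ 9.86961 * b^2 := by
      apply mul_le_mul h3.le hab2 (by positivity) (by norm_num)
    have e3 : π/4 * ((5 + 2*a) * Real.sin (π*a)) ≤ π^2/4 * ((5 + 2*a) * a) := by
      have : (5 + 2*a) * Real.sin (π*a) ≤ (5 + 2*a) * (π * a) :=
        mul_le_mul_of_nonneg_left hs (by positivity)
      calc π/4 * ((5 + 2*a) * Real.sin (π*a)) ≤ π/4 * ((5 + 2*a) * (π * a)) :=
            mul_le_mul_of_nonneg_left this (by positivity)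
        _ = _ := by ring
    have e4 : (5 + 2*a) * a ≤ (5 + 2*b) * b := by
      apply mul_le_mul <;> linarith
    have e5 : π^2/4 * ((5 + 2*a) * a) ≤ 2.4674026 * ((5 + 2*b) * b) := by
      apply mul_le_mul (by linarith) e4 (by positivity) (by norm_num)
    linarith

theorem P_J {x : ℝ} (h0 : 0.183 ≤ x) (h1 : x ≤ 0.2) : |P (1 + x)| ≤ 0.49 := by
  have hF1 := F_one_le (a := x) (by linarith) (by linarith)
  have hF2 : 2.1376 ≤ F (1 + x) := by
    apply F_ge_min (a := 0.183) (b := 0.2) (by norm_num) h0 h1 (by norm_num)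
    · have := F_one_lower (a := 0.183) (by norm_num) (by norm_num)
      norm_num at this ⊢; linarith
    · have := F_one_lower (a := 0.2) (by norm_num) (by norm_num)
      norm_num at this ⊢; linarith
  have e : F (1 + x) = 2 + (F (1+x) - 2) := by ring
  obtain ⟨h2, h3⟩ := F'_two_bounds (a := F (1+x) - 2) (b := 0.1415) (by linarith) (by linarith)
    (by norm_num)
  have h4 : F' (1 + x) ≤ 0 := by
    have a1 := F'_one_anti (a := 0.183) (b := x) (by norm_num) h0 (by linarith)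
    have a2 := F'_one_upper (a := 0.183) (by norm_num) (by norm_num)
    norm_num at a1 a2 ⊢; linarith
  have h5 : -0.2 ≤ F' (1 + x) := by
    have a1 := F'_one_anti (a := x) (b := 0.2) (by linarith) h1 (by norm_num)
    have a2 := F'_one_lower (a := 0.2) (by norm_num) (by norm_num)
    norm_num at a1 a2 ⊢; linarith
  unfold P
  rw [e, abs_mul, abs_of_nonneg h2, abs_of_nonpos h4]
  have h6 : 1/2 + 2.4674026 * (0.1415:ℝ)^2 + 2.4674026 * ((5 + 2*0.1415) * 0.1415) ≤ 2.4 := by
    norm_num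
  have h7 : F' (2 + (F (1 + x) - 2)) * -F' (1 + x) ≤ 2.4 * 0.2 := by
    apply mul_le_mul (h3.trans h6) (by linarith) (by linarith) (by norm_num)
  linarith

/-- contraction on `J` -/
theorem G_contr {x y : ℝ} (hx : x ∈ Set.Icc (1.183:ℝ) 1.2) (hy : y ∈ Set.Icc (1.183:ℝ) 1.2) :
    |G y - G x| ≤ 0.49 * |y - x| := by
  have := (convex_Icc (1.183:ℝ) 1.2).norm_image_sub_le_of_norm_hasDerivWithin_le
    (f := G) (f' := P) (C := 0.49) (fun z _ => (hasDerivAt_G z).hasDerivWithinAt) (fun z hz => by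
      rw [Real.norm_eq_abs]
      have := P_J (x := z - 1) (by linarith [hz.1]) (by linarith [hz.2])
      simpa using this) hx hy
  simpa [Real.norm_eq_abs] using this

/-- second derivative of `F` -/
noncomputable def F'' (x : ℝ) : ℝ := π * Real.sin (π*x) + π^2/4*(2*x+1) * Real.cos (π*x)

theorem hasDerivAt_F' (x : ℝ) : HasDerivAt F' (F'' x) x := by
  have h1 : HasDerivAt (fun y : ℝ => π * y) π x := by
    simpa using (hasDerivAt_id x).const_mul π
  have h2 : HasDerivAt (fun y : ℝ => Real.cos (π * y)) (-Real.sin (π * x) * π) x := h1.cos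
  have h2' : HasDerivAt (fun y : ℝ => Real.sin (π * y)) (Real.cos (π * x) * π) x := h1.sin
  have h3' : HasDerivAt (fun y : ℝ => 2*y+1) 2 x := by
    simpa using ((hasDerivAt_id x).const_mul 2).add_const 1
  have h3 : HasDerivAt (fun y : ℝ => π*(2*y+1)/4) (π*2/4) x := (h3'.const_mul π).div_const 4
  have h4 := h3.mul h2'
  have h5 := ((hasDerivAt_const x (1:ℝ)).sub (h2.div_const 2)).add h4
  refine h5.congr_deriv ?_ |>.congr_of_eventuallyEq ?_
  · unfold F''; ring
  · exact Filter.Eventually.of_forall (fun y => by simp [F'])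

theorem F''_one (a : ℝ) : F'' (1 + a) = -(π * Real.sin (π*a) + π^2/4*(3+2*a) * Real.cos (π*a)) := by
  unfold F''
  have h1 := sin_nat_add_odd (m := 1) (by norm_num) a
  have h2 := cos_nat_add_odd (m := 1) (by norm_num) a
  push_cast at h1 h2
  rw [h1, h2]; ring

theorem F''_two (a : ℝ) : F'' (2 + a) = π * Real.sin (π*a) + π^2/4*(5+2*a) * Real.cos (π*a) := by
  unfold F''
  have h1 := sin_nat_add_even (m := 2) (by norm_num) a
  have h2 := cos_nat_add_even (m := 2) (by norm_num) a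
  push_cast at h1 h2
  rw [h1, h2]; ring

noncomputable def P' (x : ℝ) : ℝ := F'' (F x) * F' x * F' x + F' (F x) * F'' x

theorem hasDerivAt_P (x : ℝ) : HasDerivAt P (P' x) x := by
  have h1 : HasDerivAt (fun y => F' (F y)) (F'' (F x) * F' x) x :=
    (hasDerivAt_F' (F x)).comp x (hasDerivAt_F x)
  have h2 := h1.mul (hasDerivAt_F' x)
  exact h2

theorem P'_pos {a : ℝ} (h0 : 0 ≤ a) (h1 : a ≤ 0.05) : 0 < P' (1 + a) := by
  have hp := Real.pi_pos
  obtain ⟨hp1, hp2⟩ := pi_sq'
  -- F x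
  have hF2 := F_one_ge_two h0 (by linarith)
  have hF3 : F (1 + a) ≤ 2.075 := by
    rw [F_one]
    have hc := Real.cos_le_one (π * a)
    have : 0 ≤ (1 - Real.cos (π*a)) * (3/4 + a/2) := mul_nonneg (by linarith) (by positivity)
    linarith
  obtain ⟨e, he⟩ : ∃ e, e = F (1+a) - 2 := ⟨_, rfl⟩
  have he' : F (1 + a) = 2 + e := by rw [he]; ring
  have he0 : 0 ≤ e := by linarith
  have he1 : e ≤ 0.075 := by linarith
  obtain ⟨h2, h3⟩ := F'_two_bounds (a := e) (b := 0.075) he0 he1 (by norm_num)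
  -- F' x
  have h4 : 1.11 ≤ F' (1 + a) := by
    have a1 := F'_one_anti (a := a) (b := 0.05) h0 h1 (by norm_num)
    have a2 := F'_one_lower (a := 0.05) (by norm_num) (by norm_num)
    norm_num at a1 a2 ⊢; linarith
  -- F'' (F x)
  have h5 : 11.9 ≤ F'' (2 + e) := by
    rw [F''_two]
    have hs0 : 0 ≤ Real.sin (π * e) := by
      apply Real.sin_nonneg_of_nonneg_of_le_pi
      · positivity
      · nlinarith
    have hc2 := Real.one_sub_sq_div_two_le_cos (x := π * e)
    have e1 : (π * e)^2 = π^2 * e^2 := by ring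
    rw [e1] at hc2
    have e2 : e^2 ≤ 0.005625 := by nlinarith
    have e3 : π^2 * e^2 ≤ 9.86961 * 0.005625 := by
      apply mul_le_mul hp2.le e2 (by positivity) (by norm_num)
    have e4 : 0.972 ≤ Real.cos (π * e) := by linarith
    have e5 : 12.337 ≤ π^2/4*(5+2*e) := by nlinarith
    have e6 : (12.337:ℝ) * 0.972 ≤ π^2/4*(5+2*e) * Real.cos (π * e) := by
      apply mul_le_mul e5 e4 (by norm_num) (by positivity)
    have e7 : 0 ≤ π * Real.sin (π * e) := by positivity
    linarith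
  -- F'' x
  have h6 : -8.2 ≤ F'' (1 + a) := by
    rw [F''_one]
    have hs := Real.sin_le (x := π * a) (by positivity)
    have hc := Real.cos_le_one (π * a)
    have e1 : π * Real.sin (π * a) ≤ π * (π * a) := mul_le_mul_of_nonneg_left hs hp.le
    have e2 : π * (π * a) = π^2 * a := by ring
    have e3 : π^2/4*(3+2*a) * Real.cos (π*a) ≤ π^2/4*(3+2*a) * 1 := by
      apply mul_le_mul_of_nonneg_left hc (by positivity)
    have e4 : π^2 * a ≤ 9.86961 * 0.05 := by
      apply mul_le_mul hp2.le h1 h0 (by norm_num)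
    have e5 : π^2/4*(3+2*a) ≤ 2.4674026 * 3.1 := by
      apply mul_le_mul (by linarith) (by linarith) (by positivity) (by norm_num)
    linarith
  unfold P'
  rw [he']
  have h7 : (11.9:ℝ) * 1.11 * 1.11 ≤ F'' (2+e) * F' (1+a) * F' (1+a) := by
    apply mul_le_mul _ h4 (by norm_num) (by nlinarith)
    apply mul_le_mul h5 h4 (by norm_num) (by linarith)
  have h8 : -(1.47 * 8.2) ≤ F' (2+e) * F'' (1+a) := by
    have h9 : F' (2+e) ≤ 1.47 := by norm_num at h3 ⊢; linarith
    nlinarith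
  norm_num at h7 h8 ⊢
  linarith

theorem P_strictMono : StrictMonoOn P (Set.Icc 1 1.05) := by
  apply strictMonoOn_of_deriv_pos (convex_Icc _ _)
  · exact fun y _ => (hasDerivAt_P y).continuousAt.continuousWithinAt
  · intro x hx
    rw [interior_Icc] at hx
    rw [(hasDerivAt_P x).deriv]
    have := P'_pos (a := x - 1) (by linarith [hx.1]) (by linarith [hx.2])
    simpa using this

end H488R2.CH
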