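import Pool.Agent.H488R2.CH.Trivial2

/-!
# Attracting cycles shadowing the trivial integer cycle `{1,2}` are `A₁` and `A₂` (III)
-/

namespace H488R2.CH

open Real

/-- MVT for `G` -/
theorem G_mvt {x y : ℝ} (hxy : x < y) : ∃ z ∈ Set.Ioo x y, P z = (G y - G x) / (y - x) := by
  obtain ⟨z, hz, h⟩ := exists_hasDerivAt_eq_slope G P hxy G_continuous.continuousOn
    (fun t _ => hasDerivAt_G t)
  exact ⟨z, hz, h⟩

theorem F_one_eq : F 1 = 2 := by
  have := F_one 0
  simpa using this

theorem F_two_eq : F 2 = 1 := by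
  have := F_two 0
  simpa using this

theorem G_one_eq : G 1 = 1 := by unfold G; rw [F_one_eq, F_two_eq]

/-- a nontrivial fixed point of `G` in `(1,1.05]` is repelling -/
theorem fixed_repelling {x : ℝ} (h0 : 1 < x) (h1 : x ≤ 1.05) (h : G x = x) : 1 < P x := by
  obtain ⟨z, hz, hP⟩ := G_mvt h0
  rw [h, G_one_eq, div_self (by linarith)] at hP
  have := P_strictMono ⟨hz.1.le, by linarith [hz.2]⟩ ⟨h0.le, h1⟩ hz.2
  linarith

/-- once `G x > x` it stays so to the right (up to `1.183`) -/
theorem G_gt_right {x y : ℝ} (h0 : 1 ≤ x) (hxy : x < y) (hy : y ≤ 1.183) (h : x < G x) :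
    y < G y := by
  by_cases h2 : 1.05 ≤ y
  · have := G_gt_mid (x := y - 1) (by linarith) (by linarith)
    simpa using this
  · push Not at h2
    by_contra hle
    push Not at hle
    have hx1 : 1 < x := by
      rcases eq_or_lt_of_le h0 with h3 | h3
      · rw [← h3, G_one_eq] at h; linarith
      · exact h3
    obtain ⟨z, hz, hP⟩ := G_mvt hx1
    obtain ⟨w, hw, hQ⟩ := G_mvt hxy
    have a1 : 1 < P z := by
      rw [hP, G_one_eq, lt_div_iff₀ (by linarith)]; linarith
    have a2 : P w < 1 := by
      rw [hQ, div_lt_iff₀ (by linarith)]; linarith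
    have := P_strictMono ⟨hz.1.le, by linarith [hz.2]⟩
      ⟨by linarith [hw.1], by linarith [hw.2]⟩ (by linarith [hz.2, hw.1] : z < w)
    linarith

/-- once `G x < x` in `(1,1.183]` it stays so to the left -/
theorem G_lt_left {x y : ℝ} (h0 : 1 < y) (hyx : y < x) (hx : x ≤ 1.183) (h : G x < x) :
    G y < y := by
  have hx5 : x < 1.05 := by
    by_contra h2
    push Not at h2
    have := G_gt_mid (x := x - 1) (by linarith) (by linarith)
    simp at this
    linarith
  by_contra hle
  push Not at hle
  obtain ⟨z, hz, hP⟩ := G_mvt h0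
  obtain ⟨w, hw, hQ⟩ := G_mvt hyx
  have a1 : 1 ≤ P z := by
    rw [hP, G_one_eq, le_div_iff₀ (by linarith)]; linarith
  have a2 : P w < 1 := by
    rw [hQ, div_lt_iff₀ (by linarith)]; linarith
  have := P_strictMono ⟨hz.1.le, by linarith [hz.2]⟩
    ⟨by linarith [hw.1], by linarith [hw.2]⟩ (by linarith [hz.2, hw.1] : z < w)
  linarith

theorem G_mem {x : ℝ} (h : x ∈ Set.Icc (1:ℝ) 1.3143) : G x ∈ Set.Icc (1:ℝ) 1.2 := by
  have h1 := G_le (a := x - 1) (by linarith [h.1]) (by linarith [h.2])
  have h2 := G_ge_one (a := x - 1) (by linarith [h.1]) (by linarith [h.2])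
  simp at h1 h2
  constructor <;> linarith

theorem G_iter_mem {x : ℝ} (h : x ∈ Set.Icc (1:ℝ) 1.3143) (k : ℕ) :
    G^[k+1] x ∈ Set.Icc (1:ℝ) 1.2 := by
  induction k with
  | zero => exact G_mem h
  | succ k ih =>
    rw [Function.iterate_succ_apply']
    exact G_mem ⟨ih.1, by linarith [ih.2]⟩

/-- `J` -/
def J : Set ℝ := Set.Icc (1.183:ℝ) 1.2

theorem G_maps_J {x : ℝ} (h : x ∈ J) : G x ∈ J := by
  have := G_J (x := x - 1) (by linarith [h.1]) (by linarith [h.2])
  have h2 : 1.183 ≤ G x ∧ G x ≤ 1.2 := by simpa using this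
  exact ⟨h2.1, h2.2⟩

theorem G_iter_J {x : ℝ} (h : x ∈ J) (k : ℕ) : G^[k] x ∈ J := by
  induction k with
  | zero => exact h
  | succ k ih => rw [Function.iterate_succ_apply']; exact G_maps_J ih

/-- there is a fixed point of `G` in `J` -/
theorem exists_fixed_J : ∃ a ∈ J, G a = a := by
  have h1 : 1.183 ≤ G 1.183 := (G_maps_J (x := 1.183) ⟨le_rfl, by norm_num⟩).1
  have h2 : G 1.2 ≤ 1.2 := (G_maps_J (x := 1.2) ⟨by norm_num, le_rfl⟩).2
  have hc : ContinuousOn (fun x => G x - x) (Set.Icc 1.183 1.2) :=
    (G_continuous.sub continuous_id).continuousOn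
  have := intermediate_value_Icc' (by norm_num : (1.183:ℝ) ≤ 1.2) hc
  obtain ⟨a, ha, h⟩ := this (show (0:ℝ) ∈ Set.Icc (G 1.2 - 1.2) (G 1.183 - 1.183) from
    ⟨by linarith, by linarith⟩)
  exact ⟨a, ha, by simpa [sub_eq_zero] using h⟩

/-- periodic points of `G` in `J` are the fixed point -/
theorem periodic_J {a x : ℝ} (ha : a ∈ J) (hfa : G a = a) (hx : x ∈ J) {q : ℕ} (hq : 0 < q)
    (h : G^[q] x = x) : x = a := by
  have key : ∀ k, |G^[k] x - a| ≤ 0.49^k * |x - a| := by
    intro k
    induction k with
    | zero => simp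
    | succ k ih =>
      rw [Function.iterate_succ_apply']
      have h1 := G_contr ha (G_iter_J hx k)
      rw [hfa] at h1
      calc |G (G^[k] x) - a| ≤ 0.49 * |G^[k] x - a| := h1
        _ ≤ 0.49 * (0.49^k * |x - a|) := mul_le_mul_of_nonneg_left ih (by norm_num)
        _ = _ := by ring
  have h1 := key q
  rw [h] at h1
  have h2 : (0.49:ℝ)^q ≤ 0.49 := by
    calc (0.49:ℝ)^q ≤ 0.49^1 := pow_le_pow_of_le_one (by norm_num) (by norm_num) hq
      _ = _ := by norm_num
  have h3 : |x - a| ≤ 0.49 * |x - a| := h1.trans (mul_le_mul_of_nonneg_right h2 (abs_nonneg _))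
  have h4 : |x - a| = 0 := by
    have := abs_nonneg (x - a); linarith
  have := abs_eq_zero.1 h4
  linarith

/-- classification of the periodic points of `G` in `[1,1.3143]` -/
theorem G_periodic {a x : ℝ} (ha : a ∈ J) (hfa : G a = a) (hx : x ∈ Set.Icc (1:ℝ) 1.3143)
    {q : ℕ} (hq : 0 < q) (h : G^[q] x = x) : x = 1 ∨ x = a ∨ (G x = x ∧ 1 < P x) := by
  obtain ⟨r, rfl⟩ : ∃ r, q = r + 1 := ⟨q-1, by omega⟩
  have hx2 : x ∈ Set.Icc (1:ℝ) 1.2 := by
    have := G_iter_mem hx r
    rwa [h] at this
  have hmem : ∀ k, G^[k] x ∈ Set.Icc (1:ℝ) 1.2 := by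
    intro k
    cases k with
    | zero => exact hx2
    | succ k => exact G_iter_mem hx k
  by_cases hJ : ∃ k, 1.183 ≤ G^[k] x
  · right; left
    obtain ⟨k, hk⟩ := hJ
    have hkJ : G^[k] x ∈ J := ⟨hk, (hmem k).2⟩
    have hper : ∀ j, G^[j*(r+1)] x = x := by
      intro j
      induction j with
      | zero => simp
      | succ j ih => rw [Nat.succ_mul, Function.iterate_add_apply, h, ih]
    have h2 := G_iter_J hkJ (k * (r+1) - k)
    rw [← Function.iterate_add_apply] at h2
    have h3 : k * (r+1) - k + k = k * (r+1) := by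
      have : k ≤ k * (r+1) := Nat.le_mul_of_pos_right k (by omega)
      omega
    rw [h3, hper] at h2
    exact periodic_J ha hfa h2 hq h
  · push Not at hJ
    rcases lt_trichotomy (G x) x with hlt | heq | hgt
    · -- decreasing
      rcases eq_or_lt_of_le hx2.1 with h1 | h1
      · left; exact h1.symm
      · exfalso
        have key : ∀ k, G^[k+1] x < x := by
          intro k
          induction k with
          | zero => exact hlt
          | succ k ih =>
            rw [Function.iterate_succ_apply']
            rcases eq_or_lt_of_le (hmem (k+1)).1 with h2 | h2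
            · rw [← h2, G_one_eq]; exact h1
            · exact (G_lt_left h2 ih (hJ 0).le hlt).trans ih
        have := key r
        rw [h] at this
        exact lt_irrefl _ this
    · rcases eq_or_lt_of_le hx2.1 with h1 | h1
      · left; exact h1.symm
      · right; right
        refine ⟨heq, ?_⟩
        have h5 : x ≤ 1.05 := by
          by_contra h5
          push Not at h5
          have := G_gt_mid (x := x - 1) (by linarith) (by have := hJ 0; simp at this; linarith)
          simp at this
          linarith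
        exact fixed_repelling h1 h5 heq
    · exfalso
      have key : ∀ k, x < G^[k+1] x := by
        intro k
        induction k with
        | zero => exact hgt
        | succ k ih =>
          rw [Function.iterate_succ_apply']
          exact ih.trans (G_gt_right hx2.1 ih (hJ (k+1)).le hgt)
      have := key r
      rw [h] at this
      exact lt_irrefl _ this

theorem F_iter_two_mul (x : ℝ) (k : ℕ) : F^[2*k] x = G^[k] x := by
  induction k with
  | zero => rfl
  | succ k ih =>
    rw [Function.iterate_succ_apply', ← ih]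
    have : 2 * (k+1) = 2*k + 1 + 1 := by ring
    rw [this, Function.iterate_succ_apply', Function.iterate_succ_apply']
    rfl

theorem I_one : I 1 ⊆ Set.Icc (1:ℝ) 1.3143 := by
  intro x hx
  obtain ⟨h1, h2⟩ := hx
  have : wid 1 = 1.1/3.5 := by unfold wid; norm_num
  rw [this] at h2
  norm_num at h1 h2 ⊢
  constructor <;> linarith

/-- product of derivatives along the orbit -/
noncomputable def mul' (p : ℕ) (x : ℝ) : ℝ := ∏ i ∈ Finset.range p, F' (F^[i] x)

theorem mul'_shift {x : ℝ} {p : ℕ} (hx : F^[p] x = x) : mul' p (F x) = mul' p x := by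
  unfold mul'
  cases p with
  | zero => rfl
  | succ p =>
    rw [Finset.prod_range_succ, Finset.prod_range_succ']
    congr 1
    rw [← Function.iterate_succ_apply, hx]; rfl

theorem mul'_iter {x : ℝ} {p : ℕ} (hx : F^[p] x = x) (k : ℕ) : mul' p (F^[k] x) = mul' p x := by
  induction k with
  | zero => rfl
  | succ k ih =>
    rw [Function.iterate_succ_apply', mul'_shift (iter_periodic hx k), ih]

/-- attracting periodic points in `I 1` -/
theorem attracting_I_one {a x : ℝ} (ha : a ∈ J) (hfa : G a = a) (hx : x ∈ I 1) {p : ℕ} (hp : 0 < p)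
    (h : F^[p] x = x) (hm : |mul' p x| < 1) : x = 1 ∨ x = a := by
  have hx' := I_one hx
  have h2 : G^[p] x = x := by
    rw [← F_iter_two_mul, two_mul, Function.iterate_add_apply, h, h]
  rcases G_periodic ha hfa hx' hp h2 with h3 | h3 | ⟨h3, h4⟩
  · left; exact h3
  · right; exact h3
  · exfalso
    -- p is even
    have hT := (shadow_of_mem h le_rfl hx).1
    have hev : p % 2 = 0 := by
      have key : ∀ k, T^[2*k] 1 = 1 ∧ T^[2*k+1] 1 = 2 := by
        intro k
        induction k with
        | zero => exact ⟨rfl, by simp [T]⟩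
        | succ k ih =>
          have e1 : 2 * (k+1) = 2*k+1+1 := by ring
          have h5 : T^[2*(k+1)] 1 = 1 := by
            rw [e1, Function.iterate_succ_apply', ih.2]; simp [T]
          refine ⟨h5, ?_⟩
          rw [Function.iterate_succ_apply', h5]; simp [T]
      by_contra hodd
      have e : p = 2 * (p/2) + 1 := by omega
      rw [e, (key (p/2)).2] at hT
      omega
    obtain ⟨q, rfl⟩ : ∃ q, p = 2 * q := ⟨p/2, by omega⟩
    have hGk : ∀ k, G^[k] x = x := fun k => Function.iterate_fixed h3 k
    have h6 : mul' (2*q) x = (P x)^q := by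
      have : ∀ k, mul' (2*k) x = (P x)^k := by
        intro k
        induction k with
        | zero => simp [mul']
        | succ k ih =>
          have e1 : 2 * (k+1) = 2*k+1+1 := by ring
          unfold mul' at ih ⊢
          rw [e1, Finset.prod_range_succ, Finset.prod_range_succ, ih,
            Function.iterate_succ_apply', F_iter_two_mul, hGk, pow_succ]
          unfold P; ring
      exact this q
    have h7 : 1 ≤ (P x)^q := one_le_pow₀ h4.le
    rw [h6, abs_of_nonneg (by linarith)] at hm
    linarith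

end H488R2.CH
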