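import Pool.Agent.H488R2.CH.Basic

/-!
# Where can `|F'| < 1` happen?
-/

namespace H488R2.CH

open Real

theorem jordan {δ : ℝ} (h0 : 0 ≤ δ) (h1 : δ ≤ 1/2) : 2 * δ ≤ Real.sin (π * δ) := by
  have hp := Real.pi_pos
  have h := Real.mul_le_sin (x := π * δ) (by positivity) (by nlinarith)
  have e : 2 / π * (π * δ) = 2 * δ := by field_simp
  linarith

theorem cos_nonneg_half {δ : ℝ} (h0 : -(1/2) ≤ δ) (h1 : δ ≤ 1/2) : 0 ≤ Real.cos (π * δ) := by
  have hp := Real.pi_pos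
  apply Real.cos_nonneg_of_mem_Icc
  constructor <;> nlinarith

/-- polynomial inequality for the wide window -/
theorem wide_aux {w : ℝ} (h0 : 0 ≤ w) (h1 : w ≤ 0.3143) :
    2 ≤ 2.46725 * ((1.1 - w/2 + 2*w^2) * (1 - 1.64495 * w^2)) - 0.5 + 2.46725 * w^2 - 2.0294 * w^4 := by
  have b0 : 0 ≤ w^2 := sq_nonneg w
  have b4 : w^2 ≤ 0.3143 * w := by nlinarith
  have b5 : w^2 ≤ 0.0988 := by nlinarith
  have b1 : w^4 ≤ 0.0988 * w^2 := by
    have : w^4 = w^2 * w^2 := by ring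
    rw [this]; exact mul_le_mul_of_nonneg_right b5 b0
  have b3 : 0 ≤ w^3 := by positivity
  nlinarith

theorem wide_lower {w : ℝ} (h0 : 0 < w) (h1 : w ≤ 0.3143) :
    2 ≤ π * (1.1 / w - 1/2 + 2*w)/4 * Real.sin (π * w) - Real.cos (π * w) / 2 := by
  have hp := Real.pi_pos
  have hp' := Real.pi_lt_d2
  have hsw := Real.sin_ge_sub_cube (x := π * w) (by positivity)
  have hcw := cos_le_four (x := π * w) (by positivity) (by nlinarith)
  obtain ⟨hp1, hp2⟩ := pi_sq_bounds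
  have hw2 : 0 ≤ w^2 := sq_nonneg w
  have hw4 : 0 ≤ w^4 := by positivity
  have hp4 : (π^2)^2 ≤ 97.411 := by nlinarith
  have hw2' : w^2 ≤ 0.0988 := by nlinarith
  have hcw' : Real.cos (π * w) ≤ 1 - 4.9345 * w^2 + 4.0588 * w^4 := by
    have e1 : (π * w)^2 = π^2 * w^2 := by ring
    have e2 : (π * w)^4 = (π^2)^2 * w^4 := by ring
    rw [e1, e2] at hcw
    have e3 := mul_le_mul_of_nonneg_right hp4 hw4
    have e4 := mul_le_mul_of_nonneg_right hp1.le hw2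
    linarith
  have hfac : 0 ≤ 1.1 - w/2 + 2*w^2 := by linarith
  have hfac2 : 0 ≤ 1 - 1.64495 * w^2 := by linarith
  have hmain : 2.46725 * ((1.1 - w/2 + 2*w^2) * (1 - 1.64495 * w^2)) ≤
      π * (1.1 / w - 1/2 + 2*w)/4 * Real.sin (π * w) := by
    have e1 : π * (1.1 / w - 1/2 + 2*w)/4 * (π * w - (π * w)^3/6) =
        π^2/4 * ((1.1 - w/2 + 2*w^2) * (1 - π^2/6 * w^2)) := by
      field_simp
    have hnn : 0 ≤ π * (1.1 / w - 1/2 + 2*w)/4 := by
      have : 1.1 / w - 1/2 + 2*w = (1.1 - w/2 + 2*w^2) / w := by field_simp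
      rw [this]; positivity
    have e2 : π * (1.1 / w - 1/2 + 2*w)/4 * (π * w - (π * w)^3/6) ≤
        π * (1.1 / w - 1/2 + 2*w)/4 * Real.sin (π * w) :=
      mul_le_mul_of_nonneg_left hsw hnn
    rw [e1] at e2
    refine le_trans ?_ e2
    have e5 : 1 - 1.64495 * w^2 ≤ 1 - π^2/6 * w^2 := by
      have := mul_le_mul_of_nonneg_right hp2.le hw2
      linarith
    have e3 : (1.1 - w/2 + 2*w^2) * (1 - 1.64495 * w^2) ≤ (1.1 - w/2 + 2*w^2) * (1 - π^2/6 * w^2) :=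
      mul_le_mul_of_nonneg_left e5 hfac
    have e4 : 0 ≤ (1.1 - w/2 + 2*w^2) * (1 - 1.64495 * w^2) := mul_nonneg hfac hfac2
    calc 2.46725 * ((1.1 - w/2 + 2*w^2) * (1 - 1.64495 * w^2))
        ≤ π^2/4 * ((1.1 - w/2 + 2*w^2) * (1 - 1.64495 * w^2)) :=
          mul_le_mul_of_nonneg_right (by linarith) e4
      _ ≤ _ := mul_le_mul_of_nonneg_left e3 (by positivity)
  have haux := wide_aux h0.le h1
  linarith

theorem window_odd {m : ℕ} (h : m % 2 = 1) {δ : ℝ} (h0 : -(1/2) ≤ δ) (h1 : δ ≤ 1/2)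
    (hF : |F' (m + δ)| < 1) : 0 ≤ δ ∧ δ ≤ 1.1 / (2*m+3/2) := by
  have hm1 : 1 ≤ m := by omega
  have hm : (1:ℝ) ≤ m := by exact_mod_cast hm1
  rw [F'_odd h, abs_lt] at hF
  obtain ⟨hF1, hF2⟩ := hF
  have hp := Real.pi_pos
  have hc := cos_nonneg_half h0 h1
  have hδ0 : 0 ≤ δ := by
    by_contra hneg
    push Not at hneg
    have hs : Real.sin (π * δ) ≤ 0 := by
      apply Real.sin_nonpos_of_nonpos_of_neg_pi_le <;> nlinarith
    have : π * (2*m+1+2*δ)/4 * Real.sin (π * δ) ≤ 0 := by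
      apply mul_nonpos_of_nonneg_of_nonpos _ hs
      have : 0 ≤ 2*(m:ℝ)+1+2*δ := by linarith
      positivity
    linarith
  refine ⟨hδ0, ?_⟩
  by_contra hgt
  push Not at hgt
  have hwd : (0:ℝ) < 2*m+3/2 := by linarith
  obtain ⟨w, hw⟩ : ∃ w : ℝ, w = 1.1 / (2*m+3/2) := ⟨_, rfl⟩
  rw [← hw] at hgt
  have hwpos : 0 < w := by rw [hw]; positivity
  have hwM : 2 * (m:ℝ) + 1 = 1.1 / w - 1/2 := by
    rw [hw]; field_simp; ring
  have hw1 : w ≤ 0.3143 := by
    rw [hw, div_le_iff₀ hwd]; linarith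
  have hw1' : w * π ≤ 1/2 * π := by
    apply mul_le_mul_of_nonneg_right (by linarith) hp.le
  have hδπ : δ * π ≤ 1/2 * π := mul_le_mul_of_nonneg_right h1 hp.le
  have hwδ : π * w ≤ π * δ := mul_le_mul_of_nonneg_left hgt.le hp.le
  have hwp : 0 < π * w := by positivity
  have hsin : Real.sin (π * w) ≤ Real.sin (π * δ) := by
    apply Real.sin_le_sin_of_le_of_le_pi_div_two <;> linarith
  have hcos : Real.cos (π * δ) ≤ Real.cos (π * w) := by
    apply Real.cos_le_cos_of_nonneg_of_le_pi <;> linarith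
  have haux := wide_lower hwpos hw1
  rw [← hwM] at haux
  have hmono : π * (2*m+1+2*w)/4 * Real.sin (π * w) ≤ π * (2*m+1+2*δ)/4 * Real.sin (π * δ) := by
    apply mul_le_mul _ hsin
    · apply Real.sin_nonneg_of_nonneg_of_le_pi <;> linarith
    · have : 0 ≤ 2*(m:ℝ)+1+2*δ := by linarith
      positivity
    · have : 2*(m:ℝ)+1+2*w ≤ 2*(m:ℝ)+1+2*δ := by linarith
      have := mul_le_mul_of_nonneg_left this hp.le
      linarith
  linarith

theorem window_even_above {m : ℕ} (h : m % 2 = 0) {δ : ℝ} (h0 : 0 ≤ δ) (h1 : δ ≤ 1/2)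
    (hF : |F' (m + δ)| < 1) : δ ≤ 0.73 / (2*m+1) := by
  rw [F'_even h, abs_lt] at hF
  obtain ⟨hF1, hF2⟩ := hF
  have hp := Real.pi_gt_d2
  have hj := jordan h0 h1
  have hc1 := Real.cos_le_one (π * δ)
  have hm : (0:ℝ) ≤ m := by positivity
  have hM : 0 < 2*(m:ℝ)+1 := by positivity
  rw [le_div_iff₀ hM]
  have e1 : π * (2*m+1+2*δ)/4 * (2*δ) ≤ π * (2*m+1+2*δ)/4 * Real.sin (π * δ) := by
    apply mul_le_mul_of_nonneg_left hj
    positivity
  have e2 : 3.14 * (2*m+1)/4 * (2*δ) ≤ π * (2*m+1+2*δ)/4 * (2*δ) := by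
    apply mul_le_mul_of_nonneg_right _ (by linarith)
    have : 3.14 * (2*(m:ℝ)+1) ≤ π * (2*m+1+2*δ) := by
      apply mul_le_mul hp.le (by linarith) (by positivity) (by positivity)
    linarith
  nlinarith

/-- near `0`: `|F'| < 1` forces `x < 1/4`. -/
theorem window_zero {x : ℝ} (h0 : 0 < x) (h1 : x ≤ 1/2) (hF : |F' x| < 1) : x < 1/4 := by
  by_contra hge
  push Not at hge
  unfold F' at hF
  rw [abs_lt] at hF
  obtain ⟨hF1, hF2⟩ := hF
  have hp := Real.pi_gt_d2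
  have hsin : Real.sin (π * (1/4)) ≤ Real.sin (π * x) := by
    apply Real.sin_le_sin_of_le_of_le_pi_div_two <;> nlinarith
  have hcos : Real.cos (π * x) ≤ Real.cos (π * (1/4)) := by
    apply Real.cos_le_cos_of_nonneg_of_le_pi <;> nlinarith
  have e1 : π * (1/4) = π/4 := by ring
  rw [e1, Real.sin_pi_div_four] at hsin
  rw [e1, Real.cos_pi_div_four] at hcos
  have h2 : 0 < Real.sqrt 2 := by positivity
  have e2 : 1 * (Real.sqrt 2/2) ≤ π * (2*x+1)/4 * Real.sin (π * x) := by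
    apply mul_le_mul _ hsin (by positivity)
    · positivity
    · nlinarith
  linarith

/-- for `0 < x < 1/4` the map moves `x` down. -/
theorem F_lt_self {x : ℝ} (h0 : 0 < x) (h1 : x < 1/4) : 0 < F x ∧ F x < x := by
  unfold F
  have hc1 := Real.cos_le_one (π * x)
  have hc2 := Real.one_sub_sq_div_two_le_cos (x := π * x)
  obtain ⟨hp1, hp2⟩ := pi_sq_bounds
  constructor
  · nlinarith
  · have e1 : (π * x)^2 = π^2 * x^2 := by ring
    rw [e1] at hc2
    have e2 : 1 - 4.93485 * x^2 ≤ Real.cos (π * x) := by nlinarith [sq_nonneg x]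
    have e3 : (2*x+1) * (1 - 4.93485 * x^2) ≤ (2*x+1) * Real.cos (π * x) :=
      mul_le_mul_of_nonneg_left e2 (by linarith)
    have e4 : 1 < (2*x+1) * (1 - 4.93485 * x^2) := by
      have : (2*x+1) * (1 - 4.93485 * x^2) - 1 = x * (2 - 4.93485 * x - 9.8697 * x^2) := by ring
      have h5 : 0 < x * (2 - 4.93485 * x - 9.8697 * x^2) := by
        apply mul_pos h0; nlinarith
      linarith
    linarith

theorem not_periodic_small {x : ℝ} (h0 : 0 < x) (h1 : x < 1/4) {p : ℕ} (hp : 0 < p) :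
    F^[p] x ≠ x := by
  have key : ∀ k, 0 < F^[k] x ∧ F^[k] x < 1/4 ∧ F^[k] x ≤ x := by
    intro k
    induction k with
    | zero => exact ⟨h0, h1, le_rfl⟩
    | succ k ih =>
      rw [Function.iterate_succ_apply']
      obtain ⟨a, b, c⟩ := ih
      obtain ⟨d, e⟩ := F_lt_self a b
      exact ⟨d, by linarith, by linarith⟩
  obtain ⟨q, rfl⟩ : ∃ q, p = q + 1 := ⟨p - 1, by omega⟩
  rw [Function.iterate_succ_apply']
  obtain ⟨a, b, c⟩ := key q
  obtain ⟨d, e⟩ := F_lt_self a b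
  exact (lt_of_lt_of_le e c).ne
  

theorem window_even_below {m : ℕ} (h : m % 2 = 0) (h1 : 1 ≤ m) {η : ℝ} (h0 : 0 ≤ η) (h2 : η ≤ 1/2)
    (hF : |F' (m - η)| < 1) : (2*(m:ℝ)+1) * η < 0.75 := by
  have hm2 : 2 ≤ m := by omega
  have hm : (2:ℝ) ≤ m := by exact_mod_cast hm2
  have e0 : (m:ℝ) - η = m + (-η) := by ring
  rw [e0, F'_even h, abs_lt] at hF
  obtain ⟨hF1, hF2⟩ := hF
  have e1 : π * (-η) = -(π * η) := by ring
  rw [e1, Real.sin_neg, Real.cos_neg] at hF1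
  have hp := Real.pi_pos
  obtain ⟨hp1, hp2⟩ := pi_sq_bounds
  by_contra hge
  push Not at hge
  obtain ⟨u, hu⟩ : ∃ u : ℝ, u = (2*(m:ℝ)+1) * η := ⟨_, rfl⟩
  rw [← hu] at hge
  have hu5 : 5 * η ≤ u := by rw [hu]; nlinarith
  have hη2 : η^2 ≤ 1/4 := by nlinarith
  have hη20 : 0 ≤ η^2 := sq_nonneg η
  have hc2 := Real.one_sub_sq_div_two_le_cos (x := π * η)
  have hc3 : 1 - 4.93485 * η^2 ≤ Real.cos (π * η) := by
    have e2 : (π * η)^2 = π^2 * η^2 := by ring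
    rw [e2] at hc2
    have := mul_le_mul_of_nonneg_right hp2.le hη20
    linarith
  have hsw := Real.sin_ge_sub_cube (x := π * η) (by positivity)
  have hfac : 0 ≤ u - 2 * η^2 := by nlinarith
  have hfac2 : 0 ≤ 1 - 1.64495 * η^2 := by linarith
  have e3 : π * (2*(m:ℝ)+1+2*(-η))/4 * (π * η - (π * η)^3/6) =
      π^2/4 * ((u - 2 * η^2) * (1 - π^2/6 * η^2)) := by
    rw [hu]; ring
  have e4 : π * (2*(m:ℝ)+1+2*(-η))/4 * (π * η - (π * η)^3/6) ≤
      π * (2*(m:ℝ)+1+2*(-η))/4 * Real.sin (π * η) := by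
    apply mul_le_mul_of_nonneg_left hsw
    have : 0 ≤ 2*(m:ℝ)+1+2*(-η) := by linarith
    positivity
  rw [e3] at e4
  have e5 : (u - 2*η^2) * (1 - 1.64495 * η^2) ≤ (u - 2*η^2) * (1 - π^2/6 * η^2) := by
    apply mul_le_mul_of_nonneg_left _ hfac
    have := mul_le_mul_of_nonneg_right hp2.le hη20
    linarith
  have e6 : 0 ≤ (u - 2*η^2) * (1 - 1.64495 * η^2) := mul_nonneg hfac hfac2
  have e7 : 2.46725 * ((u - 2*η^2) * (1 - 1.64495 * η^2)) ≤
      π^2/4 * ((u - 2 * η^2) * (1 - π^2/6 * η^2)) := by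
    calc 2.46725 * ((u - 2*η^2) * (1 - 1.64495 * η^2))
        ≤ π^2/4 * ((u - 2*η^2) * (1 - 1.64495 * η^2)) :=
          mul_le_mul_of_nonneg_right (by linarith) e6
      _ ≤ _ := mul_le_mul_of_nonneg_left e5 (by positivity)
  -- final polynomial contradiction
  have e8 : 1.5 + 2.46743 * η^2 < 2.46725 * ((u - 2*η^2) * (1 - 1.64495 * η^2)) := by
    by_cases hη : η ≤ 0.15
    · have a1 : η^2 ≤ 0.0225 := by nlinarith
      have a2 : (0.705:ℝ) * 0.96298 ≤ (u - 2*η^2) * (1 - 1.64495 * η^2) := by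
        apply mul_le_mul <;> nlinarith
      linarith
    · push Not at hη
      have a2 : (5*η - 2*η^2) * (1 - 1.64495 * η^2) ≤ (u - 2*η^2) * (1 - 1.64495 * η^2) :=
        mul_le_mul_of_nonneg_right (by linarith) hfac2
      have a3 : 1.5 + 2.46743 * η^2 < 2.46725 * ((5*η - 2*η^2) * (1 - 1.64495 * η^2)) := by
        nlinarith [mul_nonneg (sub_nonneg.2 hη.le) (sub_nonneg.2 h2), sq_nonneg (η - 0.3),
          mul_nonneg (mul_nonneg (sub_nonneg.2 hη.le) (sub_nonneg.2 h2)) h0]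
      linarith
  linarith

theorem trap_from_below {m : ℕ} (h : m % 2 = 0) (h1 : 1 ≤ m) {η : ℝ} (h0 : 0 ≤ η)
    (hu : (2*(m:ℝ)+1) * η < 0.75) : F (m - η) ≤ T m + nar (T m) := by
  have hm2 : 2 ≤ m := by omega
  have hm : (2:ℝ) ≤ m := by exact_mod_cast hm2
  obtain ⟨M, hM⟩ : ∃ M : ℝ, M = 2*(m:ℝ)+1 := ⟨_, rfl⟩
  have hM5 : 5 ≤ M := by rw [hM]; linarith
  rw [← hM] at hu
  have e0 : (m:ℝ) - η = m + (-η) := by ring
  rw [e0, F_even h, ← hM]
  have e1 : π * (-η) = -(π * η) := by ring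
  rw [e1, Real.cos_neg]
  obtain ⟨hp1, hp2⟩ := pi_sq_bounds
  have hη20 : 0 ≤ η^2 := sq_nonneg η
  have hc2 := Real.one_sub_sq_div_two_le_cos (x := π * η)
  have hc3 : 1 - Real.cos (π * η) ≤ 4.93485 * η^2 := by
    have e2 : (π * η)^2 = π^2 * η^2 := by ring
    rw [e2] at hc2
    have := mul_le_mul_of_nonneg_right hp2.le hη20
    linarith
  have hT : nar (T m) = 1.46 / (M+1) := by
    unfold nar; rw [T_even h, hM]
    field_simp; ring
  rw [hT]
  have e3 : M/4 * (1 - Real.cos (π * η)) + -η * (1 - Real.cos (π * η)/2)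
      = (1 - Real.cos (π*η)) * (M/4 - η/2) - η/2 := by ring
  rw [e3]
  have hη1 : η ≤ 0.15 := by nlinarith
  have e4 : (1 - Real.cos (π*η)) * (M/4 - η/2) ≤ 4.93485 * η^2 * (M/4) := by
    have hc1 := Real.cos_le_one (π * η)
    apply mul_le_mul hc3 (by linarith) (by linarith) (by positivity)
  have e5 : 4.93485 * η^2 * (M/4) - η/2 ≤ 0.4 / M := by
    rw [le_div_iff₀ (by linarith)]
    have : (4.93485 * η^2 * (M/4) - η/2) * M = 1.2337125 * (M*η)^2 - (M*η)/2 := by ring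
    rw [this]
    have h3 : 0 ≤ M * η := by positivity
    nlinarith
  have e6 : 0.4 / M ≤ 1.46 / (M+1) := by
    rw [div_le_div_iff₀ (by linarith) (by linarith)]
    nlinarith
  linarith

end H488R2.CH
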